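import Pool.Agent.Helper85.UG.Fin

/-!
Reduction to relations whose sections are meager and closed under finite changes.
-/

set_option autoImplicit false

namespace Pool.Agent.Helper85.UG

open Set Filter Topology PiNat Pool.Agent.Helper91.PU Pool.Agent.Helper81.UP
  Pool.Agent.Helper83.UMC

/-- `S` is closed under finite changes -/
def Tail (S : Set Bs) : Prop := ∀ y z : Bs, (∃ n, ∀ m, n ≤ m → y m = z m) → y ∈ S → z ∈ S

/-- replace the first values of `y` by the finite sequence with number `j` -/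
noncomputable def chg (j : ℕ) (y : Bs) : Bs := app (enu j) (drp (enu j).length y)

theorem chg_eq (j : ℕ) (y : Bs) {m : ℕ} (hm : (enu j).length ≤ m) : chg j y m = y m := by
  show (if m < (enu j).length then _ else y (m - (enu j).length + (enu j).length)) = _
  rw [if_neg (not_lt.2 hm), Nat.sub_add_cancel hm]

theorem exists_chg {y z : Bs} {n : ℕ} (h : ∀ m, n ≤ m → y m = z m) : ∃ j, chg j y = z := by
  obtain ⟨j, hj⟩ := enu_surj (blk z 0 n)
  refine ⟨j, ?_⟩
  have hl : (enu j).length = n := by rw [hj, blk_length]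
  funext m
  rcases lt_or_ge m n with h1 | h1
  · show (if m < (enu j).length then (enu j).getD m 0 else _) = _
    rw [if_pos (by rw [hl]; exact h1), hj, blk_getD _ _ _ _ h1, Nat.zero_add]
  · rw [chg_eq j y (by rw [hl]; exact h1)]
    exact h m h1

theorem chg_measurable (j : ℕ) : Measurable (chg j) :=
  ((app_continuous _).comp (drp_continuous _)).measurable

/-- the closure of the sections under finite changes -/
def sat (R : Set (Bs × Bs)) : Set (Bs × Bs) := {p | ∃ j, (p.1, chg j p.2) ∈ R}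

theorem sat_tail (R : Set (Bs × Bs)) (x : Bs) : Tail (sec (sat R) x) := by
  rintro y z ⟨n, hn⟩ ⟨j, hj⟩
  have h1 : ∀ m, max n (enu j).length ≤ m → z m = chg j y m := by
    intro m hm
    rw [chg_eq j y ((le_max_right _ _).trans hm)]
    exact (hn m ((le_max_left _ _).trans hm)).symm
  obtain ⟨k, hk⟩ := exists_chg h1
  refine ⟨k, ?_⟩
  show (x, chg k z) ∈ R
  rw [hk]
  exact hj

theorem subset_sat (R : Set (Bs × Bs)) : R ⊆ sat R := by
  rintro ⟨x, y⟩ h
  obtain ⟨j, hj⟩ := exists_chg (y := y) (z := y) (n := 0) fun _ _ => rfl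
  refine ⟨j, ?_⟩
  show (x, chg j y) ∈ R
  rw [hj]
  exact h

theorem sat_dom (R : Set (Bs × Bs)) : Prod.fst '' sat R = Prod.fst '' R := by
  apply Subset.antisymm
  · rintro _ ⟨⟨x, y⟩, ⟨j, hj⟩, rfl⟩
    exact ⟨_, hj, rfl⟩
  · exact image_mono (subset_sat R)

theorem sat_proj {R : Set (Bs × Bs)} (hR : Proj (Bs × Bs) R) : Proj (Bs × Bs) (sat R) := by
  have e : sat R = Prod.fst '' ((fun t : (Bs × Bs) × Bs => (t.1.1, chg (t.2 0) t.1.2)) ⁻¹' R) := by
    ext p
    constructor
    · rintro ⟨j, hj⟩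
      exact ⟨(p, fun _ => j), hj, rfl⟩
    · rintro ⟨⟨p', w⟩, hw, rfl⟩
      exact ⟨w 0, hw⟩
  rw [e]
  refine Proj.proj (hR.preimage' ?_)
  have h1 : Measurable fun q : (Bs × Bs) × ℕ => (q.1.1, chg q.2 q.1.2) := by
    apply measurable_from_prod_countable_left
    intro j
    exact measurable_fst.prodMk ((chg_measurable j).comp measurable_snd)
  have h2 : Measurable fun t : (Bs × Bs) × Bs => (t.1, t.2 0) :=
    measurable_fst.prodMk ((measurable_pi_apply 0).comp measurable_snd)
  exact h1.comp h2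

theorem uz_of_sat (hPB : PB) {R : Set (Bs × Bs)} (hR : Proj (Bs × Bs) R) (h : Uz (sat R)) :
    Uz R := by
  obtain ⟨f, hf, hfR⟩ := h
  have hE : ∀ j, Proj Bs ((fun x => (x, chg j (f x))) ⁻¹' R) := fun j =>
    hR.preimage' (measurable_id.prodMk ((chg_measurable j).comp hf))
  choose V hVo hV using fun j => (hPB _ (hE j)).residualEq_isOpen
  have hN : Measurable fun x => sInf {j | x ∈ V j} :=
    measurable_sInf_nat fun j => (hVo j).measurableSet
  refine ⟨fun x => chg (sInf {j | x ∈ V j}) (f x), ?_, ?_⟩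
  · have h1 : Measurable fun p : Bs × ℕ => chg p.2 (f p.1) := by
      apply measurable_from_prod_countable_left
      intro j
      exact (chg_measurable j).comp hf
    exact h1.comp (measurable_id.prodMk hN)
  · have h1 : ∀ᶠ x in residual Bs, ∀ j, (x, chg j (f x)) ∈ R ↔ x ∈ V j := by
      rw [eventually_countable_forall]
      intro j
      filter_upwards [hV j] with x hx
      exact iff_of_eq hx
    filter_upwards [h1, hfR] with x hx1 hx2 hxR
    rw [← sat_dom] at hxR
    obtain ⟨j, hj⟩ := hx2 hxR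
    have h3 : sInf {j | x ∈ V j} ∈ {j | x ∈ V j} := Nat.sInf_mem ⟨j, (hx1 j).1 hj⟩
    exact (hx1 _).2 h3

theorem um_iff_tail : UM ↔ PB ∧ ∀ R : Set (Bs × Bs), Proj (Bs × Bs) R →
    (∀ x, Tail (sec R x)) → (∀ᶠ x in residual Bs, IsMeagre (sec R x)) → Uz R := by
  constructor
  · intro h
    exact ⟨pb_of_uz fun _ hR => uz_of_um h hR, fun R hR _ _ => uz_of_um h hR⟩
  · rintro ⟨hPB, h⟩
    refine um_of_uz fun R hR => uz_of_sat hPB hR ?_
    have hS := sat_proj hR
    obtain ⟨V, hVo, hV⟩ := (pb2 hPB hS).residualEq_isOpen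
    have hE : {p : Bs × Bs | p ∈ sat R ↔ p ∈ V} ∈ residual (Bs × Bs) := by
      filter_upwards [hV] with p hp
      exact iff_of_eq hp
    have hW : IsOpen (Prod.fst '' V) := isOpenMap_fst _ hVo
    obtain ⟨f₁, hf₁, hfR₁⟩ := selector_nonmeager (pb2 hPB hS)
    set M : Set (Bs × Bs) := sat R ∩ (Prod.fst ⁻¹' (Prod.fst '' V))ᶜ with hM
    have hMp : Proj (Bs × Bs) M :=
      hS.inter (Proj.of_measurable (measurable_fst hW.measurableSet).compl)
    have hMt : ∀ x, Tail (sec M x) := by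
      rintro x y z hyz ⟨h1, h2⟩
      exact ⟨sat_tail R x y z hyz h1, h2⟩
    have hMm : ∀ᶠ x in residual Bs, IsMeagre (sec M x) := by
      filter_upwards [ku hE] with x hx
      have h1 : ∀ᶠ y in residual Bs, y ∈ (sec M x)ᶜ := by
        filter_upwards [hx] with y hy
        rintro ⟨h2, h3⟩
        exact h3 ⟨(x, y), hy.1 h2, rfl⟩
      exact h1
    obtain ⟨f₂, hf₂, hfR₂⟩ := h M hMp hMt hMm
    classical
    refine ⟨fun x => if x ∈ Prod.fst '' V then f₁ x else f₂ x,
      Measurable.ite hW.measurableSet hf₁ hf₂, ?_⟩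
    filter_upwards [hfR₁, hfR₂, ku hE] with x hx1 hx2 hx3 hxR
    by_cases hxV : x ∈ Prod.fst '' V
    · rw [if_pos hxV]
      apply hx1
      intro hm
      obtain ⟨⟨x', y⟩, hy, hx'⟩ := hxV
      have h1 : x' = x := hx'
      subst h1
      refine nonmeager_of_open (hVo.preimage (Continuous.prodMk_right x')) ⟨y, hy⟩ ?_
      have h2 : ∀ᶠ z in residual Bs, z ∈ ((fun z => (x', z)) ⁻¹' V)ᶜ := by
        have h3 : ∀ᶠ z in residual Bs, z ∈ (sec (sat R) x')ᶜ := hm
        filter_upwards [hx3, h3] with z hz1 hz2 hz3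
        exact hz2 (hz1.2 hz3)
      exact h2
    · rw [if_neg hxV]
      obtain ⟨⟨x', y⟩, hy, hx'⟩ := hxR
      have h1 : x' = x := hx'
      subst h1
      exact (hx2 ⟨(x', y), ⟨hy, hxV⟩, rfl⟩).1

end Pool.Agent.Helper85.UG
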