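import Pool.Agent.Helper85.UG.Win
import Pool.Agent.Helper81.UP.Cat
import Pool.Agent.Helper83.UMC.Sel

/-!
Determinacy of unfolded Banach-Mazur games, the Baire property and uniformization up to meager
sets.
-/

set_option autoImplicit false

namespace Pool.Agent.Helper85.UG

open Set Filter Topology PiNat Pool.Agent.Helper91.PU Pool.Agent.Helper81.UP
  Pool.Agent.Helper83.UMC

/-- `R` has a Borel uniformization up to a meager set -/
def Uz (R : Set (Bs × Bs)) : Prop :=
  ∃ f : Bs → Bs, Measurable f ∧ ∀ᶠ x in residual Bs, x ∈ Prod.fst '' R → (x, f x) ∈ R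

/-- `R` together with all points outside of its domain -/
def fl (R : Set (Bs × Bs)) : Set (Bs × Bs) := R ∪ {p | p.1 ∉ Prod.fst '' R}

theorem fl_proj {R : Set (Bs × Bs)} (hR : Proj (Bs × Bs) R) : Proj (Bs × Bs) (fl R) := by
  have h1 : Proj Bs (Prod.fst '' R) := hR.proj
  exact hR.union (h1.preimage' measurable_fst).compl

theorem mem_fl {R : Set (Bs × Bs)} {x y : Bs} :
    (x, y) ∈ fl R ↔ (x ∈ Prod.fst '' R → (x, y) ∈ R) := by
  constructor
  · rintro (h | h) hx
    · exact h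
    · exact absurd hx h
  · intro h
    by_cases hx : x ∈ Prod.fst '' R
    · exact Or.inl (h hx)
    · exact Or.inr hx

theorem fl_full (R : Set (Bs × Bs)) : Prod.fst '' fl R = univ := by
  rw [eq_univ_iff_forall]
  intro x
  by_cases hx : x ∈ Prod.fst '' R
  · obtain ⟨p, hp, rfl⟩ := hx
    exact ⟨p, Or.inl hp, rfl⟩
  · exact ⟨(x, x), Or.inr hx, rfl⟩

theorem uz_iff (R : Set (Bs × Bs)) :
    Uz R ↔ ∃ f : Bs → Bs, Measurable f ∧ ∀ᶠ x in residual Bs, (x, f x) ∈ fl R := by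
  unfold Uz
  simp only [mem_fl]

/-- gluing countably many local solutions -/
theorem glue {Q : Set (Bs × Bs)} (h : ∀ O : Set Bs, IsOpen O → O.Nonempty → ∃ U ⊆ O, IsOpen U ∧
      U.Nonempty ∧ ∃ f : Bs → Bs, Measurable f ∧ ∀ᶠ x in residual Bs, x ∈ U → (x, f x) ∈ Q) :
    ∃ f : Bs → Bs, Measurable f ∧ ∀ᶠ x in residual Bs, (x, f x) ∈ Q := by
  set S : Set (Set Bs) := {V | IsOpen V ∧ ∃ f : Bs → Bs, Measurable f ∧
    ∀ᶠ x in residual Bs, x ∈ V → (x, f x) ∈ Q} with hS
  obtain ⟨T, hTc, hTS, hTU⟩ := TopologicalSpace.isOpen_sUnion_countable S fun V hV => hV.1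
  have hd : Dense (⋃₀ T) := by
    rw [hTU, dense_iff_inter_open]
    intro O hO hne
    obtain ⟨U, hUO, hU, ⟨x, hx⟩, f, hf, hfQ⟩ := h O hO hne
    exact ⟨x, hUO hx, U, ⟨hU, f, hf, hfQ⟩, hx⟩
  have hTne : T.Nonempty := by
    obtain ⟨x, hx⟩ := hd.nonempty
    obtain ⟨V, hV, _⟩ := hx
    exact ⟨V, hV⟩
  obtain ⟨V, rfl⟩ := hTc.exists_eq_range hTne
  have hV : ∀ n, V n ∈ S := fun n => hTS ⟨n, rfl⟩
  choose f hf hfQ using fun n => (hV n).2
  have hN : Measurable fun x => sInf {n | x ∈ V n} :=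
    measurable_sInf_nat fun n => (hV n).1.measurableSet
  refine ⟨fun x => f (sInf {n | x ∈ V n}) x, ?_, ?_⟩
  · have h1 : Measurable fun p : Bs × ℕ => f p.2 p.1 := by
      apply measurable_from_prod_countable_left
      intro n
      exact hf n
    exact h1.comp (measurable_id.prodMk hN)
  · have h1 : ∀ᶠ x in residual Bs, x ∈ ⋃₀ range V := by
      refine residual_of_dense_open ?_ hd
      exact isOpen_sUnion fun W hW => (hTS hW).1
    have h2 : ∀ᶠ x in residual Bs, ∀ n, x ∈ V n → (x, f n x) ∈ Q := by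
      rw [eventually_countable_forall]
      exact hfQ
    filter_upwards [h1, h2] with x hx1 hx2
    obtain ⟨_, ⟨n, rfl⟩, hn⟩ := hx1
    have h4 : sInf {n | x ∈ V n} ∈ {n | x ∈ V n} := Nat.sInf_mem ⟨n, hn⟩
    exact hx2 _ h4

theorem uz_of_um (h : UM) {R : Set (Bs × Bs)} (hR : Proj (Bs × Bs) R) : Uz R := by
  rw [uz_iff]
  refine glue fun O hO hne => ?_
  have h1 : Proj (Bs × Bs) (fl R ∩ Prod.fst ⁻¹' O) :=
    (fl_proj hR).inter (Proj.of_measurable (measurable_fst hO.measurableSet))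
  have h2 : Prod.fst '' (fl R ∩ Prod.fst ⁻¹' O) = O := by
    rw [image_inter_preimage, fl_full, univ_inter]
  obtain ⟨U, hUO, hU, hUne, f, hf, hfR⟩ := um_open h h1
    (by rw [h2]; exact nonmeager_of_open hO hne) hO (by rw [h2])
  refine ⟨U, hUO, hU, hUne, f, hf, ?_⟩
  filter_upwards [hfR] with x hx hxU
  exact (hx hxU).1

theorem pb_of_uz (h : ∀ R : Set (Bs × Bs), Proj (Bs × Bs) R → Uz R) : PB := by
  intro A hA
  have hc0 : MeasurableSet {p : Bs × Bs | p.2 0 = 0} := by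
    have h1 : Measurable fun p : Bs × Bs => p.2 0 := (measurable_pi_apply 0).comp measurable_snd
    exact h1 (measurableSet_singleton 0)
  have hA1 : Proj (Bs × Bs) (Prod.fst ⁻¹' A) := hA.preimage' measurable_fst
  set R : Set (Bs × Bs) := (Prod.fst ⁻¹' A ∩ {p | p.2 0 = 0}) ∪ ((Prod.fst ⁻¹' A)ᶜ ∩ {p | p.2 0 = 0}ᶜ)
    with hRdef
  have hR : Proj (Bs × Bs) R :=
    (hA1.inter (Proj.of_measurable hc0)).union (hA1.compl.inter (Proj.of_measurable hc0.compl))
  obtain ⟨f, hf, hfR⟩ := h R hR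
  have hdom : ∀ x, x ∈ Prod.fst '' R := by
    intro x
    by_cases hx : x ∈ A
    · exact ⟨(x, fun _ => 0), Or.inl ⟨hx, rfl⟩, rfl⟩
    · refine ⟨(x, fun _ => 1), Or.inr ⟨hx, ?_⟩, rfl⟩
      intro h1
      have h2 : (1 : ℕ) = 0 := h1
      omega
  have hB : MeasurableSet {x | f x 0 = 0} := by
    have h1 : Measurable fun x => f x 0 := (measurable_pi_apply 0).comp hf
    exact h1 (measurableSet_singleton 0)
  refine hB.baireMeasurableSet.congr ?_
  filter_upwards [hfR] with x hx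
  have h3 : (x ∈ A ∧ f x 0 = 0) ∨ (x ∉ A ∧ ¬ f x 0 = 0) := hx (hdom x)
  apply propext
  show f x 0 = 0 ↔ x ∈ A
  tauto

theorem um_of_uz (h : ∀ R : Set (Bs × Bs), Proj (Bs × Bs) R → Uz R) : UM := by
  intro R hR A hA hAn
  have hPB := pb_of_uz h
  obtain ⟨f, hf, hfR⟩ := h R hR
  obtain ⟨V, hV, hRV⟩ := (hPB _ hR.proj).residualEq_isOpen
  have h1 : ∀ᶠ x in residual Bs, (x ∈ Prod.fst '' R → (x, f x) ∈ R) ∧
      (x ∈ Prod.fst '' R ↔ x ∈ V) := by
    filter_upwards [hfR, hRV] with x hx1 hx2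
    exact ⟨hx1, iff_of_eq hx2⟩
  obtain ⟨t, ht, htG, htd⟩ := mem_residual.1 h1
  have htr : t ∈ residual Bs := residual_of_dense_Gδ htG htd
  by_cases hc : IsMeagre (A ∩ V)
  · refine ⟨A ∩ Vᶜ ∩ t, inter_subset_left.trans inter_subset_left,
      (hA.inter hV.measurableSet.compl).inter htG.measurableSet, ?_, Or.inl ?_⟩
    · intro hm
      apply hAn
      have h2 : ∀ᶠ x in residual Bs, x ∈ Aᶜ := by
        have h3 : ∀ᶠ x in residual Bs, x ∈ (A ∩ V)ᶜ := hc
        have h4 : ∀ᶠ x in residual Bs, x ∈ (A ∩ Vᶜ ∩ t)ᶜ := hm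
        filter_upwards [h3, h4, htr] with x hx3 hx4 hx5 hxA
        by_cases hxV : x ∈ V
        · exact hx3 ⟨hxA, hxV⟩
        · exact hx4 ⟨⟨hxA, hxV⟩, hx5⟩
      exact h2
    · rw [eq_empty_iff_forall_notMem]
      rintro x ⟨⟨⟨_, hxV⟩, hxt⟩, hxR⟩
      exact hxV ((ht hxt).2.1 hxR)
  · refine ⟨A ∩ V ∩ t, inter_subset_left.trans inter_subset_left,
      (hA.inter hV.measurableSet).inter htG.measurableSet, ?_, Or.inr ⟨?_, ?_⟩⟩
    · intro hm
      apply hc
      have h2 : ∀ᶠ x in residual Bs, x ∈ (A ∩ V)ᶜ := by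
        have h4 : ∀ᶠ x in residual Bs, x ∈ (A ∩ V ∩ t)ᶜ := hm
        filter_upwards [h4, htr] with x hx4 hx5 hxA
        exact hx4 ⟨hxA, hx5⟩
      exact h2
    · rintro x ⟨⟨_, hxV⟩, hxt⟩
      exact (ht hxt).2.2 hxV
    · refine ⟨fun x => f x, hf.comp measurable_subtype_coe, ?_⟩
      rintro ⟨x, ⟨⟨_, hxV⟩, hxt⟩⟩
      exact (ht hxt).1 ((ht hxt).2.2 hxV)

theorem um_iff_uz : UM ↔ ∀ R : Set (Bs × Bs), Proj (Bs × Bs) R → Uz R :=
  ⟨fun h _ hR => uz_of_um h hR, um_of_uz⟩

/-- a uniformizable relation whose domain has the Baire property is determined -/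
theorem det_of_uz {R : Set (Bs × Bs)} (hB : BaireMeasurableSet (Prod.fst '' R)) (h : Uz R) :
    WinI R ∨ WinII R := by
  obtain ⟨f, hf, hfR⟩ := h
  obtain ⟨V, hV, hRV⟩ := hB.residualEq_isOpen
  by_cases hd : Dense V
  · right
    rw [winII_iff]
    refine ⟨f, hf, ?_⟩
    filter_upwards [hfR, hRV, residual_of_dense_open hV hd] with x hx1 hx2 hx3
    exact hx1 ((iff_of_eq hx2).2 hx3)
  · left
    rw [winI_iff]
    refine ⟨(closure V)ᶜ, isClosed_closure.isOpen_compl, ?_, ?_⟩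
    · by_contra hem
      rw [not_nonempty_iff_eq_empty, compl_empty_iff] at hem
      exact hd (dense_iff_closure_eq.2 hem)
    · have h1 : ∀ᶠ x in residual Bs, x ∈ ((closure V)ᶜ ∩ Prod.fst '' R)ᶜ := by
        filter_upwards [hRV] with x hx
        rintro ⟨hx1, hx2⟩
        exact hx1 (subset_closure ((iff_of_eq hx).1 hx2))
      exact h1

theorem not_winI_of_full {R : Set (Bs × Bs)} (h : Prod.fst '' R = univ) : ¬ WinI R := by
  rw [winI_iff]
  rintro ⟨O, hO, hne, hm⟩
  rw [h, inter_univ] at hm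
  exact nonmeager_of_open hO hne hm

theorem um_iff_det : UM ↔ ∀ R : Set (Bs × Bs), Proj (Bs × Bs) R → WinI R ∨ WinII R := by
  rw [um_iff_uz]
  constructor
  · intro h R hR
    exact det_of_uz (pb_of_uz h _ hR.proj) (h R hR)
  · intro h R hR
    rcases h (fl R) (fl_proj hR) with h1 | h1
    · exact absurd h1 (not_winI_of_full (fl_full R))
    · rw [uz_iff]
      exact (winII_iff _).1 h1

/-! ### cylinders and shifts -/

/-- the finite sequence `s` followed by `x` -/
def app (s : List ℕ) (x : Bs) : Bs := fun i => if i < s.length then s.getD i 0 else x (i - s.length)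

/-- `x` without its first `n` values -/
def drp (n : ℕ) (x : Bs) : Bs := fun i => x (i + n)

theorem app_mem (s : List ℕ) (x : Bs) : app s x ∈ Cy s := fun _ hi => if_pos hi

theorem drp_app (s : List ℕ) (x : Bs) : drp s.length (app s x) = x := by
  funext i
  show (if i + s.length < s.length then _ else x (i + s.length - s.length)) = _
  rw [if_neg (by omega), Nat.add_sub_cancel]

theorem app_drp {s : List ℕ} {x : Bs} (hx : x ∈ Cy s) : app s (drp s.length x) = x := by
  funext i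
  show (if i < s.length then _ else x (i - s.length + s.length)) = _
  split_ifs with h
  · exact (hx i h).symm
  · rw [Nat.sub_add_cancel (not_lt.1 h)]

theorem app_continuous (s : List ℕ) : Continuous (app s) := by
  refine continuous_pi fun i => ?_
  by_cases h : i < s.length
  · have e : (fun x : Bs => app s x i) = fun _ => s.getD i 0 := by
      funext x
      exact if_pos h
    rw [e]
    exact continuous_const
  · have e : (fun x : Bs => app s x i) = fun x => x (i - s.length) := by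
      funext x
      exact if_neg h
    rw [e]
    exact continuous_apply _

theorem drp_continuous (n : ℕ) : Continuous (drp n) := continuous_pi fun _ => continuous_apply _

theorem app_image (s : List ℕ) (U : Set Bs) : app s '' U = Cy s ∩ drp s.length ⁻¹' U := by
  ext x
  constructor
  · rintro ⟨z, hz, rfl⟩
    refine ⟨app_mem s z, ?_⟩
    show drp s.length (app s z) ∈ U
    rw [drp_app]
    exact hz
  · rintro ⟨h1, h2⟩
    exact ⟨_, h2, app_drp h1⟩

theorem app_open (s : List ℕ) : IsOpenMap (app s) := by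
  intro U hU
  rw [app_image]
  exact (Cy_isOpen s).inter (hU.preimage (drp_continuous _))

theorem drp_open (n : ℕ) : IsOpenMap (drp n) := by
  intro U hU
  rw [isOpen_iff_mem_nhds]
  rintro _ ⟨x, hx, rfl⟩
  have h1 : U ∩ Cy (blk x 0 n) ∈ 𝓝 x := by
    refine (hU.inter (Cy_isOpen _)).mem_nhds ⟨hx, ?_⟩
    intro i hi
    rw [blk_length] at hi
    rw [blk_getD _ _ _ _ hi, Nat.zero_add]
  have h2 : (blk x 0 n).length = n := blk_length _ _ _
  have h3 : IsOpen (app (blk x 0 n) ⁻¹' U) := hU.preimage (app_continuous _)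
  have h5 : x ∈ Cy (blk x 0 n) := by
    intro i hi
    rw [blk_length] at hi
    rw [blk_getD _ _ _ _ hi, Nat.zero_add]
  have h4 : drp n x ∈ app (blk x 0 n) ⁻¹' U := by
    show app (blk x 0 n) (drp n x) ∈ U
    have h6 := app_drp h5
    rw [h2] at h6
    rw [h6]
    exact hx
  filter_upwards [h3.mem_nhds h4] with z hz
  refine ⟨app (blk x 0 n) z, hz, ?_⟩
  have h6 := drp_app (blk x 0 n) z
  rw [h2] at h6
  exact h6

theorem app_residual (s : List ℕ) {A : Set Bs} (h : A ∈ residual Bs) :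
    app s ⁻¹' A ∈ residual Bs :=
  tendsto_residual_of_isOpenMap (app_continuous s) (app_open s) h

theorem drp_residual (n : ℕ) {A : Set Bs} (h : A ∈ residual Bs) : drp n ⁻¹' A ∈ residual Bs :=
  tendsto_residual_of_isOpenMap (drp_continuous n) (drp_open n) h

theorem exists_Cy {O : Set Bs} (hO : IsOpen O) (hne : O.Nonempty) : ∃ s, Cy s ⊆ O := by
  obtain ⟨x, hx⟩ := hne
  obtain ⟨q, _, _, h⟩ := exists_ext (p := []) (by rw [Cy_nil]; trivial) hO hx
  exact ⟨_, h⟩

theorem pb_of_plain (h : ∀ A : Set Bs, Proj Bs A → WinI {p | p.1 ∈ A} ∨ WinII {p | p.1 ∈ A}) :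
    PB := by
  intro A hA
  have hstep : ∀ s : List ℕ, (∀ᶠ x in residual Bs, x ∈ Cy s → x ∈ A) ∨
      ∃ O : Set Bs, IsOpen O ∧ O.Nonempty ∧ O ⊆ Cy s ∧ ∀ᶠ x in residual Bs, x ∈ O → x ∉ A := by
    intro s
    have h1 : Proj Bs (app s ⁻¹' A) := hA.preimage' (app_continuous s).measurable
    rcases h _ h1 with h2 | h2
    · right
      rw [winI_iff] at h2
      obtain ⟨O, hO, ⟨z, hz⟩, hm⟩ := h2
      refine ⟨Cy s ∩ drp s.length ⁻¹' O, (Cy_isOpen s).inter (hO.preimage (drp_continuous _)),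
        ⟨app s z, app_mem s z, ?_⟩, inter_subset_left, ?_⟩
      · show drp s.length (app s z) ∈ O
        rw [drp_app]
        exact hz
      · filter_upwards [drp_residual s.length hm] with x hx hxO hxA
        apply hx
        refine ⟨hxO.2, ⟨(drp s.length x, x), ?_, rfl⟩⟩
        show app s (drp s.length x) ∈ A
        rw [app_drp hxO.1]
        exact hxA
    · left
      rw [winII_iff] at h2
      obtain ⟨f, _, hf⟩ := h2
      filter_upwards [drp_residual s.length hf] with x hx hxs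
      have h3 : app s (drp s.length x) ∈ A := hx
      rw [app_drp hxs] at h3
      exact h3
  set V : Set Bs := ⋃ s ∈ {s : List ℕ | ∀ᶠ x in residual Bs, x ∈ Cy s → x ∈ A}, Cy s with hV
  set O : Set Bs := ⋃ s ∈ {s : List ℕ | ∀ᶠ x in residual Bs, x ∈ Cy s → x ∉ A}, Cy s with hO
  have hVo : IsOpen V := isOpen_biUnion fun s _ => Cy_isOpen s
  have hOo : IsOpen O := isOpen_biUnion fun s _ => Cy_isOpen s
  have hVA : ∀ᶠ x in residual Bs, x ∈ V → x ∈ A := by
    have h1 : ∀ᶠ x in residual Bs, ∀ s (_ : s ∈ {s : List ℕ | ∀ᶠ x in residual Bs, x ∈ Cy s → x ∈ A}),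
        x ∈ Cy s → x ∈ A := (eventually_countable_ball (to_countable _)).2 fun s hs => hs
    filter_upwards [h1] with x hx hxV
    obtain ⟨s, hs, hxs⟩ := mem_iUnion₂.1 hxV
    exact hx s hs hxs
  have hOA : ∀ᶠ x in residual Bs, x ∈ O → x ∉ A := by
    have h1 : ∀ᶠ x in residual Bs, ∀ s (_ : s ∈ {s : List ℕ | ∀ᶠ x in residual Bs, x ∈ Cy s → x ∉ A}),
        x ∈ Cy s → x ∉ A := (eventually_countable_ball (to_countable _)).2 fun s hs => hs
    filter_upwards [h1] with x hx hxV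
    obtain ⟨s, hs, hxs⟩ := mem_iUnion₂.1 hxV
    exact hx s hs hxs
  have hd : Dense (V ∪ O) := by
    rw [dense_iff_inter_open]
    intro W hW hWne
    obtain ⟨s, hs⟩ := exists_Cy hW hWne
    rcases hstep s with h1 | ⟨U, hU, hUne, hUs, hUA⟩
    · obtain ⟨x, hx⟩ := Cy_nonempty s
      exact ⟨x, hs hx, Or.inl (mem_iUnion₂.2 ⟨s, h1, hx⟩)⟩
    · obtain ⟨t, ht⟩ := exists_Cy hU hUne
      obtain ⟨x, hx⟩ := Cy_nonempty t
      refine ⟨x, hs (hUs (ht hx)), Or.inr (mem_iUnion₂.2 ⟨t, ?_, hx⟩)⟩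
      show ∀ᶠ x in residual Bs, x ∈ Cy t → x ∉ A
      filter_upwards [hUA] with z hz hzt
      exact hz (ht hzt)
  refine hVo.baireMeasurableSet.congr ?_
  filter_upwards [hVA, hOA, residual_of_dense_open (hVo.union hOo) hd] with x h1 h2 h3
  apply propext
  constructor
  · exact h1
  · intro h4
    rcases h3 with h3 | h3
    · exact h3
    · exact absurd h4 (h2 h3)

theorem uz_fat (hPB : PB) {R : Set (Bs × Bs)} (hR : Proj (Bs × Bs) R)
    (h : ∀ᶠ x in residual Bs, (sec R x).Nonempty → Fat (sec R x)) : Uz R := by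
  obtain ⟨f, hf, hfR⟩ := unif_one hPB hR
  refine ⟨f, hf, ?_⟩
  filter_upwards [h, hfR] with x hx1 hx2
  rintro ⟨⟨x', y⟩, hxy, hx'⟩
  have h3 : x' = x := hx'
  subst h3
  exact hx2 (hx1 ⟨y, hxy⟩)

theorem pb_tfae : List.TFAE [PB,
    ∀ A : Set Bs, Proj Bs A → WinI {p | p.1 ∈ A} ∨ WinII {p | p.1 ∈ A},
    ∀ R : Set (Bs × Bs), Proj (Bs × Bs) R → (∀ x, IsClosed (sec R x)) → WinI R ∨ WinII R,
    ∀ R : Set (Bs × Bs), Proj (Bs × Bs) R → (∀ x, (sec R x).Nonempty → Fat (sec R x)) →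
      WinI R ∨ WinII R] := by
  tfae_have 1 → 4 := fun h R hR hF =>
    det_of_uz (h _ hR.proj) (uz_fat h hR (Eventually.of_forall hF))
  tfae_have 4 → 3 := fun h R hR hF => h R hR fun x hx => fat_of_closed (hF x) hx
  tfae_have 3 → 2 := fun h A hA => by
    refine h _ (hA.preimage' measurable_fst) fun x => ?_
    by_cases hx : x ∈ A
    · have e : sec {p : Bs × Bs | p.1 ∈ A} x = univ := eq_univ_of_forall fun _ => hx
      rw [e]
      exact isClosed_univ
    · have e : sec {p : Bs × Bs | p.1 ∈ A} x = ∅ := eq_empty_of_forall_notMem fun _ h => hx h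
      rw [e]
      exact isClosed_empty
  tfae_have 2 → 1 := pb_of_plain
  tfae_finish

end Pool.Agent.Helper85.UG
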