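import Pool.Agent.Helper85.UG.Gap

/-!
The final statements on unfolded Banach-Mazur games and uniformization up to meager sets.
-/

set_option autoImplicit false

namespace Pool.Agent.Helper85.UG

open Set Filter Topology PiNat Pool.Agent.Helper91.PU Pool.Agent.Helper81.UP
  Pool.Agent.Helper83.UMC

/-- `R` contains fewer than `cov (M)` uniformizable relations such that comeager many points of the
domain of `R` are in the domain of one of them -/
def Split (R : Set (Bs × Bs)) : Prop :=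
  ∃ 𝒬 : Set (Set (Bs × Bs)), Cardinal.mk 𝒬 < covM ∧ (∀ Q ∈ 𝒬, Q ⊆ R ∧ Uz Q) ∧
    ∀ᶠ x in residual Bs, x ∈ Prod.fst '' R → ∃ Q ∈ 𝒬, x ∈ Prod.fst '' Q

/-- there is a projective norm such that all levels of `R` are uniformizable -/
def Normed (R : Set (Bs × Bs)) : Prop :=
  ∃ ρ : Bs × Bs → Ordinal.{0}, Proj ((Bs × Bs) × (Bs × Bs)) {q | ρ q.1 ≤ ρ q.2} ∧
    ∀ α, Uz {p | p ∈ R ∧ ρ p = α}

theorem one_lt_covM : 1 < covM := by
  have hne : {κ | ∃ A : Set (Set Bs), (∀ M ∈ A, IsMeagre M) ∧ ⋃₀ A = univ ∧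
      Cardinal.mk A = κ}.Nonempty := by
    refine ⟨_, range (fun x : Bs => {x}), ?_, ?_, rfl⟩
    · rintro _ ⟨x, rfl⟩
      have h1 : ({x} : Set Bs)ᶜ ∈ residual Bs := by
        refine residual_of_dense_open isOpen_compl_singleton ?_
        rw [dense_iff_inter_open]
        intro U hU hne
        obtain ⟨s, hs⟩ := exists_Cy hU hne
        by_contra hem
        rw [not_nonempty_iff_eq_empty] at hem
        have h2 : ∀ z ∈ Cy s, z = x := by
          intro z hz
          by_contra hzx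
          have h3 : z ∈ U ∩ {x}ᶜ := ⟨hs hz, hzx⟩
          rw [hem] at h3
          exact h3
        have h3 := (h2 _ (app_mem s fun _ => 0)).trans (h2 _ (app_mem s fun _ => 1)).symm
        have h4 := congrArg (drp s.length) h3
        rw [drp_app, drp_app] at h4
        have h5 := congrFun h4 0
        simp at h5
      exact h1
    · rw [eq_univ_iff_forall]
      intro x
      exact ⟨{x}, ⟨x, rfl⟩, rfl⟩
  obtain ⟨A, hA, hU, hc⟩ := csInf_mem hne
  have hc' : Cardinal.mk A = covM := hc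
  rw [← hc']
  by_contra hle
  rw [not_lt, Cardinal.le_one_iff_subsingleton] at hle
  have h1 : ∃ M : Set Bs, IsMeagre M ∧ M = univ := by
    obtain ⟨M, hM, hx⟩ : (fun _ => 0 : Bs) ∈ ⋃₀ A := by rw [hU]; trivial
    refine ⟨M, hA M hM, ?_⟩
    rw [eq_univ_iff_forall]
    intro z
    obtain ⟨M', hM', hz⟩ : z ∈ ⋃₀ A := by rw [hU]; trivial
    have h2 : (⟨M', hM'⟩ : A) = ⟨M, hM⟩ := Subsingleton.elim _ _
    have h3 : M' = M := congrArg Subtype.val h2
    rw [← h3]
    exact hz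
  obtain ⟨M, hM, rfl⟩ := h1
  exact nonmeager_of_open isOpen_univ ⟨fun _ => 0, trivial⟩ hM

theorem uz_of_split (hPB : PB) {R : Set (Bs × Bs)} (hR : Proj (Bs × Bs) R) (h : Split R) :
    Uz R := by
  obtain ⟨𝒬, h1, h2, h3⟩ := h
  refine gap hPB hR h1 (Q := fun Q : 𝒬 => (Q : Set (Bs × Bs))) (fun Q => (h2 Q Q.2).1)
    (fun Q => (h2 Q Q.2).2) ?_
  filter_upwards [h3] with x hx hxR
  obtain ⟨Q, hQ, hxQ⟩ := hx hxR
  exact ⟨⟨Q, hQ⟩, hxQ⟩

theorem uz_tfae (hPB : PB) {R : Set (Bs × Bs)} (hR : Proj (Bs × Bs) R) :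
    List.TFAE [Uz R, Split R, Normed R] := by
  tfae_have 1 → 2 := by
    intro h
    refine ⟨{R}, ?_, ?_, Eventually.of_forall fun x hx => ⟨R, rfl, hx⟩⟩
    · rw [Cardinal.mk_singleton]
      exact one_lt_covM
    · intro Q hQ
      have h1 : Q = R := hQ
      subst h1
      exact ⟨Subset.rfl, h⟩
  tfae_have 2 → 1 := uz_of_split hPB hR
  tfae_have 1 → 3 := by
    intro h
    have hB : BorelSpace ((Bs × Bs) × (Bs × Bs)) := borel22
    refine ⟨fun _ => 0, ?_, ?_⟩
    · have e : {q : (Bs × Bs) × (Bs × Bs) | (fun _ : Bs × Bs => (0 : Ordinal.{0})) q.1 ≤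
          (fun _ : Bs × Bs => (0 : Ordinal.{0})) q.2} = univ :=
        eq_univ_of_forall fun _ => le_refl (0 : Ordinal.{0})
      rw [e]
      exact Proj.of_measurable MeasurableSet.univ
    · intro α
      by_cases hα : (0 : Ordinal.{0}) = α
      · have e : {p : Bs × Bs | p ∈ R ∧ (fun _ : Bs × Bs => (0 : Ordinal.{0})) p = α} = R := by
          ext p
          constructor
          · rintro ⟨h1, _⟩
            exact h1
          · intro h1
            exact ⟨h1, hα⟩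
        rw [e]
        exact h
      · refine ⟨fun x => x, measurable_id, Eventually.of_forall fun x hx => ?_⟩
        obtain ⟨p, hp, _⟩ := hx
        exact absurd hp.2 hα
  tfae_have 3 → 1 := by
    rintro ⟨ρ, h1, h2⟩
    exact norm_uz hPB hR h1 h2
  tfae_finish

/-- `R` is a union of fewer than `cov (M)` analytic sets, or there is a projective norm such that
all levels of `R` are analytic -/
def Decomp (R : Set (Bs × Bs)) : Prop :=
  (∃ 𝒬 : Set (Set (Bs × Bs)), Cardinal.mk 𝒬 < covM ∧ (∀ Q ∈ 𝒬, MeasureTheory.AnalyticSet Q) ∧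
    R = ⋃₀ 𝒬) ∨
  ∃ ρ : Bs × Bs → Ordinal.{0}, Proj ((Bs × Bs) × (Bs × Bs)) {q | ρ q.1 ≤ ρ q.2} ∧
    ∀ α, MeasureTheory.AnalyticSet {p | p ∈ R ∧ ρ p = α}

theorem uz_decomp (hPB : PB) {R : Set (Bs × Bs)} (hR : Proj (Bs × Bs) R) (h : Decomp R) : Uz R := by
  rcases h with ⟨𝒬, h1, h2, h3⟩ | ⟨ρ, h1, h2⟩
  · refine uz_of_split hPB hR ⟨𝒬, h1, fun Q hQ => ⟨?_, uz_analytic hPB (h2 Q hQ)⟩, ?_⟩
    · rw [h3]
      exact subset_sUnion_of_mem hQ
    · refine Eventually.of_forall fun x hx => ?_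
      rw [h3] at hx
      obtain ⟨p, ⟨Q, hQ, hpQ⟩, hp⟩ := hx
      exact ⟨Q, hQ, p, hpQ, hp⟩
  · exact norm_uz hPB hR h1 fun α => uz_analytic hPB (h2 α)

theorem pb_iff_um (h : ∀ R : Set (Bs × Bs), Proj (Bs × Bs) R → Decomp R) : PB ↔ UM :=
  ⟨fun hPB => um_of_uz fun R hR => uz_decomp hPB hR (h R hR),
    fun hUM => pb_of_uz fun _ hR => uz_of_um hUM hR⟩

end Pool.Agent.Helper85.UG
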