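import Pool.Agent.Helper91.PU.Main

/-!
Unfolded Banach-Mazur games: definitions, positions, and the player who builds a point along a
comeager set.
-/

set_option autoImplicit false

namespace Pool.Agent.Helper85.UG

open Set Filter Topology PiNat Pool.Agent.Helper91.PU

/-- the finite sequence played in the first `n` rounds, if the first player plays `u 0, u 1, ...`
and the second player plays `v 0, v 1, ...` -/
def pos (u v : ℕ → List ℕ) : ℕ → List ℕ
  | 0 => []
  | n + 1 => pos u v n ++ u n ++ v n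

/-- the point of the Baire space which the two players build -/
def outc (u v : ℕ → List ℕ) : Bs := fun i => (pos u v (i + 1)).getD i 0

/-- the list `m (n - 1), ..., m 0` of the first `n` moves (the last one first) -/
def hist {α : Type} (m : ℕ → α) : ℕ → List α
  | 0 => []
  | n + 1 => m n :: hist m n

/-- The first player has a winning strategy in the game of `R`: in round `n` the first player plays
a nonempty finite sequence `u n`, then the second player plays a nonempty finite sequence and a
number, `(m n).1` and `(m n).2`; the second player wins if `(x, y) ∈ R`, where `x` is the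
concatenation of the finite sequences and `y` the sequence of the numbers `(m n).2`. -/
def WinI (R : Set (Bs × Bs)) : Prop :=
  ∃ σ : List (List ℕ × ℕ) → List ℕ, (∀ h, σ h ≠ []) ∧
    ∀ m : ℕ → List ℕ × ℕ, (∀ n, (m n).1 ≠ []) →
      (outc (fun n => σ (hist m n)) (fun n => (m n).1), fun n => (m n).2) ∉ R

/-- the second player has a winning strategy in the game of `R` -/
def WinII (R : Set (Bs × Bs)) : Prop :=
  ∃ τ : List (List ℕ) → List ℕ × ℕ, (∀ h, (τ h).1 ≠ []) ∧
    ∀ u : ℕ → List ℕ, (∀ n, u n ≠ []) →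
      (outc u (fun n => (τ (hist u (n + 1))).1), fun n => (τ (hist u (n + 1))).2) ∈ R

/-- the points which extend the finite sequence `p` -/
def Cy (p : List ℕ) : Set Bs := {x | ∀ i < p.length, x i = p.getD i 0}

theorem Cy_nil : Cy [] = univ := by
  ext x
  simp [Cy]

theorem Cy_isOpen (p : List ℕ) : IsOpen (Cy p) := by
  have e : Cy p = ⋂ i ∈ {i : ℕ | i < p.length}, {x : Bs | x i = p.getD i 0} := by
    ext x
    simp [Cy]
  rw [e]
  refine Set.Finite.isOpen_biInter (finite_lt_nat p.length) fun i _ => ?_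
  exact (isOpen_discrete ({p.getD i 0} : Set ℕ)).preimage (f := fun z : Bs => z i)
    (continuous_apply i)

theorem Cy_isClosed (p : List ℕ) : IsClosed (Cy p) := by
  have e : Cy p = ⋂ i ∈ {i : ℕ | i < p.length}, {x : Bs | x i = p.getD i 0} := by
    ext x
    simp [Cy]
  rw [e]
  refine isClosed_biInter fun i _ => ?_
  exact (isClosed_discrete ({p.getD i 0} : Set ℕ)).preimage (f := fun z : Bs => z i)
    (continuous_apply i)

theorem Cy_nonempty (p : List ℕ) : (Cy p).Nonempty := ⟨fun i => p.getD i 0, fun _ _ => rfl⟩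

theorem Cy_append (p q : List ℕ) : Cy (p ++ q) ⊆ Cy p := by
  intro x hx i hi
  have h1 := hx i (by rw [List.length_append]; omega)
  rw [h1, List.getD_append _ _ _ _ hi]

/-- the finite sequence `x a, ..., x (a + k - 1)` -/
def blk (x : Bs) (a k : ℕ) : List ℕ := (List.range k).map fun i => x (a + i)

theorem blk_length (x : Bs) (a k : ℕ) : (blk x a k).length = k := by simp [blk]

theorem blk_getD (x : Bs) (a k i : ℕ) (h : i < k) : (blk x a k).getD i 0 = x (a + i) := by
  simp [blk, List.getD_eq_getElem?_getD, h]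

theorem mem_Cy_blk {x : Bs} {p : List ℕ} (hx : x ∈ Cy p) (k : ℕ) :
    x ∈ Cy (p ++ blk x p.length k) := by
  intro i hi
  rw [List.length_append, blk_length] at hi
  rcases lt_or_ge i p.length with h | h
  · rw [List.getD_append _ _ _ _ h]
    exact hx i h
  · rw [List.getD_append_right _ _ _ _ h, blk_getD _ _ _ _ (by omega)]
    congr 1
    omega

/-- a point of an open set has a cylinder in the set which extends a given cylinder -/
theorem exists_ext {x : Bs} {p : List ℕ} (hx : x ∈ Cy p) {U : Set Bs} (hU : IsOpen U)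
    (hxU : x ∈ U) : ∃ q, q ≠ [] ∧ x ∈ Cy (p ++ q) ∧ Cy (p ++ q) ⊆ U := by
  obtain ⟨V, ⟨z, l, rfl⟩, hxV, hVU⟩ :=
    (isTopologicalBasis_cylinders (fun _ : ℕ => ℕ)).exists_subset_of_mem_open hxU hU
  refine ⟨blk x p.length (l + 1), ?_, mem_Cy_blk hx _, ?_⟩
  · intro h
    have := congrArg List.length h
    rw [blk_length] at this
    simp at this
  · intro w hw
    apply hVU
    rw [mem_cylinder_iff] at hxV ⊢
    intro i hi
    rw [← hxV i hi]
    have h1 := hw i (by rw [List.length_append, blk_length]; omega)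
    have h2 := mem_Cy_blk hx (l + 1) i (by rw [List.length_append, blk_length]; omega)
    rw [h1, h2]

/-- inside a cylinder one can enter a dense open set -/
theorem exists_ext_dense (p : List ℕ) {U : Set Bs} (hU : IsOpen U) (hd : Dense U) :
    ∃ q, q ≠ [] ∧ Cy (p ++ q) ⊆ U := by
  obtain ⟨x, hxp, hxU⟩ := hd.inter_open_nonempty (Cy p) (Cy_isOpen p) (Cy_nonempty p)
  obtain ⟨q, hq, _, hqU⟩ := exists_ext hxp hU hxU
  exact ⟨q, hq, hqU⟩

theorem pos_length (u v : ℕ → List ℕ) (hv : ∀ n, v n ≠ []) (n : ℕ) : n ≤ (pos u v n).length := by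
  induction n with
  | zero => exact Nat.zero_le _
  | succ n ih =>
    have h1 : 0 < (v n).length := List.length_pos_iff.2 (hv n)
    show n + 1 ≤ (pos u v n ++ u n ++ v n).length
    rw [List.length_append, List.length_append]
    omega

theorem pos_getD {u v : ℕ → List ℕ} {n m i : ℕ} (hnm : n ≤ m) (hi : i < (pos u v n).length) :
    i < (pos u v m).length ∧ (pos u v m).getD i 0 = (pos u v n).getD i 0 := by
  induction m, hnm using Nat.le_induction with
  | base => exact ⟨hi, rfl⟩
  | succ m hm ih =>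
    obtain ⟨h1, h2⟩ := ih
    refine ⟨?_, ?_⟩
    · show i < (pos u v m ++ u m ++ v m).length
      rw [List.length_append, List.length_append]
      omega
    · show (pos u v m ++ u m ++ v m).getD i 0 = _
      rw [List.append_assoc, List.getD_append _ _ _ _ h1, h2]

theorem outc_mem {u v : ℕ → List ℕ} (hv : ∀ n, v n ≠ []) (n : ℕ) : outc u v ∈ Cy (pos u v n) := by
  intro i hi
  show (pos u v (i + 1)).getD i 0 = _
  have h1 : i < (pos u v (i + 1)).length :=
    lt_of_lt_of_le (Nat.lt_succ_self i) (pos_length u v hv (i + 1))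
  rcases le_total n (i + 1) with h | h
  · exact (pos_getD h hi).2
  · exact (pos_getD h h1).2.symm

theorem eq_outc {u v : ℕ → List ℕ} (hv : ∀ n, v n ≠ []) {x : Bs} (hx : ∀ n, x ∈ Cy (pos u v n)) :
    outc u v = x := by
  funext i
  have h1 : i < (pos u v (i + 1)).length :=
    lt_of_lt_of_le (Nat.lt_succ_self i) (pos_length u v hv (i + 1))
  exact (hx (i + 1) i h1).symm

theorem hist_length {α : Type} (m : ℕ → α) (n : ℕ) : (hist m n).length = n := by
  induction n with
  | zero => rfl
  | succ n ih => simp [hist, ih]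

/-- dependent choice along histories -/
theorem exists_play {α : Type} (good : List α → Prop) (A : ℕ → α → Prop) (h0 : good [])
    (step : ∀ h, good h → ∃ a, A h.length a ∧ good (a :: h)) :
    ∃ m : ℕ → α, ∀ n, good (hist m n) ∧ A n (m n) := by
  choose f hf1 hf2 using step
  let H : ℕ → {h : List α // good h} := fun n => Nat.rec ⟨[], h0⟩ (fun _ H => ⟨f H.1 H.2 :: H.1, hf2 H.1 H.2⟩) n
  have hH : ∀ n, H (n + 1) = ⟨f (H n).1 (H n).2 :: (H n).1, hf2 (H n).1 (H n).2⟩ := fun n => rfl
  refine ⟨fun n => f (H n).1 (H n).2, ?_⟩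
  have key : ∀ n, hist (fun n => f (H n).1 (H n).2) n = (H n).1 := by
    intro n
    induction n with
    | zero => rfl
    | succ n ih =>
      rw [hH n]
      show f (H n).1 (H n).2 :: hist (fun n => f (H n).1 (H n).2) n = _
      rw [ih]
  intro n
  refine ⟨?_, ?_⟩
  · rw [key n]
    exact (H n).2
  · have h1 := hf1 (H n).1 (H n).2
    have h2 : (H n).1.length = n := by
      rw [← key n, hist_length]
    rw [h2] at h1
    exact h1

/-- countably many dense open sets below a comeager set -/
theorem exists_dense_seq {A : Set Bs} (h : A ∈ residual Bs) :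
    ∃ D : ℕ → Set Bs, (∀ n, IsOpen (D n)) ∧ (∀ n, Dense (D n)) ∧ (⋂ n, D n) ⊆ A := by
  obtain ⟨t, htA, htG, htd⟩ := mem_residual.1 h
  obtain ⟨V, hV, rfl⟩ := htG.eq_iInter_nat
  exact ⟨V, hV, fun j => htd.mono (iInter_subset V j), htA⟩

/-- a cylinder condition which is met densely -/
theorem dense_step (p : List ℕ) {ι : Type} (E : ι → List ℕ)
    (h : ∀ q, q ≠ [] → ∃ i, Cy (E i) ⊆ Cy (p ++ q)) :
    IsOpen ((Cy p)ᶜ ∪ ⋃ i, Cy (E i)) ∧ Dense ((Cy p)ᶜ ∪ ⋃ i, Cy (E i)) := by
  refine ⟨(Cy_isClosed p).isOpen_compl.union (isOpen_iUnion fun i => Cy_isOpen _), ?_⟩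
  rw [dense_iff_inter_open]
  rintro U hU ⟨x, hx⟩
  by_cases hxp : x ∈ Cy p
  · obtain ⟨q, hq, _, hqU⟩ := exists_ext hxp hU hx
    obtain ⟨i, hi⟩ := h q hq
    obtain ⟨z, hz⟩ := Cy_nonempty (E i)
    exact ⟨z, hqU (hi hz), Or.inr (mem_iUnion.2 ⟨i, hz⟩)⟩
  · exact ⟨x, hx, Or.inl hxp⟩

end Pool.Agent.Helper85.UG
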