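import Pool.Agent.Helper85.UG.Det

/-!
If all projective sets have the Baire property: unions of fewer than `cov (M)` uniformizable
relations, projective norms with uniformizable levels, and independence of small sections.
-/

set_option autoImplicit false

namespace Pool.Agent.Helper85.UG

open Set Filter Topology PiNat Pool.Agent.Helper91.PU Pool.Agent.Helper81.UP
  Pool.Agent.Helper83.UMC

/-- the least number of meager sets with union the Baire space -/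
noncomputable def covM : Cardinal.{0} :=
  sInf {κ | ∃ A : Set (Set Bs), (∀ M ∈ A, IsMeagre M) ∧ ⋃₀ A = univ ∧ Cardinal.mk A = κ}

theorem small_union {ι : Type} (hι : Cardinal.mk ι < covM) {M : ι → Set Bs}
    (hM : ∀ i, IsMeagre (M i)) {O : Set Bs} (hO : IsOpen O) (hne : O.Nonempty) :
    ¬ (O ⊆ ⋃ i, M i) := by
  intro hOM
  obtain ⟨s, hs⟩ := exists_Cy hO hne
  have h1 : ⋃₀ (range fun i => app s ⁻¹' (M i)) = univ := by
    rw [eq_univ_iff_forall]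
    intro x
    obtain ⟨i, hi⟩ := mem_iUnion.1 (hOM (hs (app_mem s x)))
    exact ⟨_, ⟨i, rfl⟩, hi⟩
  have h2 : ∀ A ∈ (range fun i => app s ⁻¹' (M i)), IsMeagre A := by
    rintro _ ⟨i, rfl⟩
    have h3 : (M i)ᶜ ∈ residual Bs := hM i
    exact app_residual s h3
  have h3 : covM ≤ Cardinal.mk (range fun i => app s ⁻¹' (M i)) := csInf_le' ⟨_, h2, h1, rfl⟩
  exact absurd (h3.trans Cardinal.mk_range_le) (not_le.2 hι)

theorem not_meagre_open {O : Set Bs} (hO : IsOpen O) (hne : O.Nonempty) {N : Set Bs}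
    (hN : IsMeagre N) : ¬ (O ⊆ N) := fun h => nonmeager_of_open hO hne (hN.mono h)

/-- the same with one more meager set -/
theorem small_union' {ι : Type} (hι : Cardinal.mk ι < covM) {M : ι → Set Bs}
    (hM : ∀ i, IsMeagre (M i)) {N : Set Bs} (hN : IsMeagre N) {O : Set Bs} (hO : IsOpen O)
    (hne : O.Nonempty) : ¬ (O ⊆ N ∪ ⋃ i, M i) := by
  intro h
  rcases isEmpty_or_nonempty ι with hem | ⟨⟨i₀⟩⟩
  · refine not_meagre_open hO hne hN ?_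
    intro x hx
    rcases h hx with h1 | h1
    · exact h1
    · obtain ⟨i, _⟩ := mem_iUnion.1 h1
      exact hem.elim i
  · refine small_union hι (M := fun i => N ∪ M i) (fun i => hN.union (hM i)) hO hne ?_
    intro x hx
    rcases h hx with h1 | h1
    · exact mem_iUnion.2 ⟨i₀, Or.inl h1⟩
    · obtain ⟨i, hi⟩ := mem_iUnion.1 h1
      exact mem_iUnion.2 ⟨i, Or.inr hi⟩

/-- local uniformizations suffice -/
theorem uz_of_local (hPB : PB) {R : Set (Bs × Bs)} (hR : Proj (Bs × Bs) R)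
    (h : ∀ O : Set Bs, IsOpen O → O.Nonempty → (∀ᶠ x in residual Bs, x ∈ O → x ∈ Prod.fst '' R) →
      ∃ f : Bs → Bs, Measurable f ∧ ¬ IsMeagre {x | x ∈ O ∧ (x, f x) ∈ R}) : Uz R := by
  rw [uz_iff]
  refine glue fun O hO hne => ?_
  have hB := hPB _ hR.proj
  by_cases hc : IsMeagre (O ∩ (Prod.fst '' R)ᶜ)
  · have h1 : ∀ᶠ x in residual Bs, x ∈ O → x ∈ Prod.fst '' R := by
      have h2 : ∀ᶠ x in residual Bs, x ∈ (O ∩ (Prod.fst '' R)ᶜ)ᶜ := hc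
      filter_upwards [h2] with x hx hxO
      by_contra hxR
      exact hx ⟨hxO, hxR⟩
    obtain ⟨f, hf, hfR⟩ := h O hO hne h1
    have h2 : Proj Bs {x | x ∈ O ∧ (x, f x) ∈ R} :=
      (Proj.of_measurable hO.measurableSet).inter (hR.preimage' (measurable_id.prodMk hf))
    obtain ⟨U, hUO, hU, hUne, hUR⟩ := open_of_nonmeagre (hPB _ h2) hO (fun x hx => hx.1) hfR
    refine ⟨U, hUO, hU, hUne, f, hf, ?_⟩
    filter_upwards [hUR] with x hx hxU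
    exact Or.inl (hx hxU).2
  · have h2 : BaireMeasurableSet (O ∩ (Prod.fst '' R)ᶜ) :=
      (hO.baireMeasurableSet).inter hB.compl
    obtain ⟨U, hUO, hU, hUne, hUR⟩ := open_of_nonmeagre h2 hO inter_subset_left hc
    refine ⟨U, hUO, hU, hUne, fun x => x, measurable_id, ?_⟩
    filter_upwards [hUR] with x hx hxU
    exact Or.inr (hx hxU).2

/-- fewer than `cov (M)` uniformizable relations -/
theorem gap (hPB : PB) {R : Set (Bs × Bs)} (hR : Proj (Bs × Bs) R) {ι : Type}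
    (hι : Cardinal.mk ι < covM) {Q : ι → Set (Bs × Bs)} (hQR : ∀ i, Q i ⊆ R) (hQ : ∀ i, Uz (Q i))
    (h : ∀ᶠ x in residual Bs, x ∈ Prod.fst '' R → ∃ i, x ∈ Prod.fst '' Q i) : Uz R := by
  refine uz_of_local hPB hR fun O hO hne hOR => ?_
  by_contra hno
  push Not at hno
  choose f hf hfQ using hQ
  have h1 : ∀ᶠ x in residual Bs, x ∈ O → ∃ i, x ∈ Prod.fst '' Q i := by
    filter_upwards [h, hOR] with x hx1 hx2 hxO
    exact hx1 (hx2 hxO)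
  have h2 : ∀ i, IsMeagre (O ∩ Prod.fst '' Q i) := by
    intro i
    have h3 : ∀ᶠ x in residual Bs, x ∈ {x | x ∈ O ∧ (x, f i x) ∈ R}ᶜ := hno (f i) (hf i)
    have h4 : ∀ᶠ x in residual Bs, x ∈ (O ∩ Prod.fst '' Q i)ᶜ := by
      filter_upwards [h3, hfQ i] with x hx1 hx2
      rintro ⟨hx3, hx4⟩
      exact hx1 ⟨hx3, hQR i (hx2 hx4)⟩
    exact h4
  refine small_union' hι h2 (N := {x | x ∈ O → ∃ i, x ∈ Prod.fst '' Q i}ᶜ) ?_ hO hne ?_
  · have h3 : {x | x ∈ O → ∃ i, x ∈ Prod.fst '' Q i}ᶜᶜ ∈ residual Bs := by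
      rw [compl_compl]
      exact h1
    exact h3
  · intro x hx
    by_cases hx2 : ∃ i, x ∈ Prod.fst '' Q i
    · obtain ⟨i, hi⟩ := hx2
      exact Or.inr (mem_iUnion.2 ⟨i, hx, hi⟩)
    · exact Or.inl fun h3 => hx2 (h3 hx)

/-- a projective prewellordering with meager classes lives on a meager set -/
theorem prewo (hPB : PB) {S : Set Bs} (hS : Proj Bs S) (r : Bs → Ordinal.{0})
    (hr : Proj (Bs × Bs) {p | p.1 ∈ S ∧ p.2 ∈ S ∧ r p.2 ≤ r p.1})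
    (hc : ∀ α, IsMeagre {x | x ∈ S ∧ r x = α}) : IsMeagre S := by
  by_contra hSn
  -- a nonmeager initial segment all of whose proper initial segments are meager
  obtain ⟨T, hTS, hT, hTn, hTi⟩ : ∃ T ⊆ S, Proj Bs T ∧ ¬ IsMeagre T ∧
      ∀ z ∈ T, IsMeagre {x | x ∈ T ∧ r x ≤ r z} := by
    by_cases hem : ∃ z ∈ S, ¬ IsMeagre {x | x ∈ S ∧ r x ≤ r z}
    · obtain ⟨z₀, ⟨hz₀S, hz₀⟩, hmin⟩ := WellFounded.has_min
        (InvImage.wf r (wellFounded_lt (α := Ordinal.{0})))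
        {z | z ∈ S ∧ ¬ IsMeagre {x | x ∈ S ∧ r x ≤ r z}} hem
      have h1 : Proj Bs {x | x ∈ S ∧ z₀ ∈ S ∧ r z₀ ≤ r x} :=
        hr.preimage' (f := fun x : Bs => (x, z₀)) (measurable_id.prodMk measurable_const)
      refine ⟨S ∩ {x | x ∈ S ∧ z₀ ∈ S ∧ r z₀ ≤ r x}ᶜ, inter_subset_left, hS.inter h1.compl,
        ?_, ?_⟩
      · intro hm
        apply hz₀
        refine (hm.union (hc (r z₀))).mono ?_
        rintro x ⟨hx1, hx2⟩
        rcases lt_or_eq_of_le hx2 with h3 | h3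
        · exact Or.inl ⟨hx1, fun h4 => absurd h4.2.2 (not_le.2 h3)⟩
        · exact Or.inr ⟨hx1, h3⟩
      · rintro z ⟨hzS, hz⟩
        have hz2 : r z < r z₀ := by
          by_contra h3
          exact hz ⟨hzS, hz₀S, not_lt.1 h3⟩
        by_contra h4
        refine hmin z ⟨hzS, fun h5 => h4 (h5.mono ?_)⟩ hz2
        rintro x ⟨hx1, hx2⟩
        exact ⟨hx1.1, hx2⟩
    · push Not at hem
      exact ⟨S, Subset.rfl, hS, hSn, hem⟩
  have h1 : Proj (Bs × Bs) {p | p.1 ∈ T ∧ p.2 ∈ T ∧ r p.2 ≤ r p.1} := by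
    have h2 : Proj (Bs × Bs) (Prod.fst ⁻¹' T) := hT.preimage' measurable_fst
    have h3 : Proj (Bs × Bs) (Prod.snd ⁻¹' T) := hT.preimage' measurable_snd
    have e : {p : Bs × Bs | p.1 ∈ T ∧ p.2 ∈ T ∧ r p.2 ≤ r p.1} =
        (Prod.fst ⁻¹' T ∩ Prod.snd ⁻¹' T) ∩ {p | p.1 ∈ S ∧ p.2 ∈ S ∧ r p.2 ≤ r p.1} := by
      ext p
      constructor
      · rintro ⟨h4, h5, h6⟩
        exact ⟨⟨h4, h5⟩, hTS h4, hTS h5, h6⟩
      · rintro ⟨⟨h4, h5⟩, _, _, h6⟩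
        exact ⟨h4, h5, h6⟩
    rw [e]
    exact (h2.inter h3).inter hr
  have h2 : {p : Bs × Bs | p.1 ∈ T ∧ p.2 ∈ T ∧ r p.2 ≤ r p.1}ᶜ ∈ residual (Bs × Bs) := by
    refine ku_conv (pb2 hPB h1).compl (Eventually.of_forall fun x => ?_)
    by_cases hx : x ∈ T
    · have h3 : ∀ᶠ z in residual Bs, z ∈ {z | z ∈ T ∧ r z ≤ r x}ᶜ := hTi x hx
      filter_upwards [h3] with z hz
      rintro ⟨_, h4, h5⟩
      exact hz ⟨h4, h5⟩
    · exact Eventually.of_forall fun z h3 => hx h3.1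
  have h3 := ku' h2
  apply hTn
  by_contra hTn'
  obtain ⟨z, hzT, hz⟩ : ∃ z ∈ T, {x | (x, z) ∈
      {p : Bs × Bs | p.1 ∈ T ∧ p.2 ∈ T ∧ r p.2 ≤ r p.1}ᶜ} ∈ residual Bs := by
    by_contra hno
    push Not at hno
    apply hTn
    have h4 : ∀ᶠ z in residual Bs, z ∈ Tᶜ := by
      filter_upwards [h3] with z hz hzT
      exact hno z hzT hz
    exact h4
  apply hTn
  have h5 : ∀ᶠ x in residual Bs, x ∈ {x | x ∈ T ∧ r x ≤ r z}ᶜ := hTi z hzT
  have h6 : ∀ᶠ x in residual Bs, x ∈ Tᶜ := by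
    filter_upwards [h5, hz] with x hx1 hx2 hxT
    rcases le_total (r x) (r z) with h7 | h7
    · exact hx1 ⟨hxT, h7⟩
    · exact hx2 ⟨hxT, hzT, h7⟩
  exact h6

/-- the least value of `ρ` on the section of `R` over `x` -/
noncomputable def lst (R : Set (Bs × Bs)) (ρ : Bs × Bs → Ordinal.{0}) (x : Bs) : Ordinal.{0} :=
  sInf {α | ∃ y, (x, y) ∈ R ∧ ρ (x, y) = α}

theorem lst_le {R : Set (Bs × Bs)} {ρ : Bs × Bs → Ordinal.{0}} {x y : Bs} (h : (x, y) ∈ R) :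
    lst R ρ x ≤ ρ (x, y) := csInf_le' ⟨y, h, rfl⟩

theorem lst_mem {R : Set (Bs × Bs)} {ρ : Bs × Bs → Ordinal.{0}} {x : Bs}
    (h : x ∈ Prod.fst '' R) : ∃ y, (x, y) ∈ R ∧ ρ (x, y) = lst R ρ x := by
  obtain ⟨⟨x', y⟩, hxy, hx'⟩ := h
  have h1 : x' = x := hx'
  subst h1
  exact csInf_mem (s := {α | ∃ y, (x', y) ∈ R ∧ ρ (x', y) = α}) ⟨_, y, hxy, rfl⟩

theorem borel4' : BorelSpace (((Bs × Bs) × Bs) × Bs) := by
  have h1 : BorelSpace ((Bs × Bs) × Bs) := inferInstance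
  have h2 : SecondCountableTopology ((Bs × Bs) × Bs) := inferInstance
  have h3 : SecondCountableTopologyEither ((Bs × Bs) × Bs) Bs := inferInstance
  exact Prod.borelSpace

theorem borel22 : BorelSpace ((Bs × Bs) × (Bs × Bs)) := by
  have h1 : BorelSpace (Bs × Bs) := inferInstance
  have h2 : SecondCountableTopology (Bs × Bs) := inferInstance
  have h3 : SecondCountableTopologyEither (Bs × Bs) (Bs × Bs) := inferInstance
  exact Prod.borelSpace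

theorem lst_proj {R : Set (Bs × Bs)} (hR : Proj (Bs × Bs) R) {ρ : Bs × Bs → Ordinal.{0}}
    (hρ : Proj ((Bs × Bs) × (Bs × Bs)) {q | ρ q.1 ≤ ρ q.2}) :
    Proj (Bs × Bs) {p | p.1 ∈ Prod.fst '' R ∧ p.2 ∈ Prod.fst '' R ∧ lst R ρ p.2 ≤ lst R ρ p.1} := by
  have e : {p : Bs × Bs | p.1 ∈ Prod.fst '' R ∧ p.2 ∈ Prod.fst '' R ∧
      lst R ρ p.2 ≤ lst R ρ p.1} = Prod.fst ⁻¹' (Prod.fst '' R) ∩
        Prod.fst '' {t : (Bs × Bs) × Bs | (t.1.2, t.2) ∈ R ∧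
          t ∉ Prod.fst '' {s : ((Bs × Bs) × Bs) × Bs | (s.1.1.1, s.2) ∈ R ∧
            ¬ ρ (s.1.1.2, s.1.2) ≤ ρ (s.1.1.1, s.2)}} := by
    ext ⟨x, z⟩
    constructor
    · rintro ⟨hx, hz, hle⟩
      obtain ⟨w, hw, hw2⟩ := lst_mem (ρ := ρ) hz
      refine ⟨hx, ⟨((x, z), w), ⟨hw, ?_⟩, rfl⟩⟩
      rintro ⟨⟨⟨⟨x', z'⟩, w'⟩, y⟩, ⟨h1, h2⟩, h3⟩
      have h4 : ((x', z'), w') = ((x, z), w) := h3
      simp only [Prod.mk.injEq] at h4
      obtain ⟨⟨h5, h6⟩, h7⟩ := h4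
      subst h5 h6 h7
      apply h2
      show ρ (z', w') ≤ ρ (x', y)
      rw [hw2]
      exact hle.trans (lst_le h1)
    · rintro ⟨hx, ⟨⟨⟨x', z'⟩, w⟩, ⟨h1, h2⟩, h3⟩⟩
      have h4 : (x', z') = (x, z) := h3
      simp only [Prod.mk.injEq] at h4
      obtain ⟨h5, h6⟩ := h4
      subst h5 h6
      obtain ⟨y, hy, hy2⟩ := lst_mem (ρ := ρ) hx
      refine ⟨hx, ⟨(z', w), h1, rfl⟩, ?_⟩
      have h7 : lst R ρ z' ≤ ρ (z', w) := lst_le h1
      refine h7.trans ?_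
      have hy3 : ρ (x', y) = lst R ρ x' := hy2
      show ρ (z', w) ≤ lst R ρ x'
      rw [← hy3]
      by_contra h8
      exact h2 ⟨(((x', z'), w), y), ⟨hy, h8⟩, rfl⟩
  rw [e]
  have hB4 : BorelSpace (((Bs × Bs) × Bs) × Bs) := borel4'
  have hB22 : BorelSpace ((Bs × Bs) × (Bs × Bs)) := borel22
  have h1 : Proj (Bs × Bs) (Prod.fst ⁻¹' (Prod.fst '' R)) := hR.proj.preimage' measurable_fst
  have h2 : Proj (((Bs × Bs) × Bs) × Bs) {s | (s.1.1.1, s.2) ∈ R ∧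
      ¬ ρ (s.1.1.2, s.1.2) ≤ ρ (s.1.1.1, s.2)} := by
    have h3 : Proj (((Bs × Bs) × Bs) × Bs)
        ((fun s : ((Bs × Bs) × Bs) × Bs => (s.1.1.1, s.2)) ⁻¹' R) :=
      hR.preimage' (by fun_prop)
    have h4 : Proj (((Bs × Bs) × Bs) × Bs)
        ((fun s : ((Bs × Bs) × Bs) × Bs => ((s.1.1.2, s.1.2), (s.1.1.1, s.2))) ⁻¹'
          {q : (Bs × Bs) × (Bs × Bs) | ρ q.1 ≤ ρ q.2}) :=
      hρ.preimage' (by fun_prop)
    exact h3.inter h4.compl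
  have h5 : Proj ((Bs × Bs) × Bs) ((fun t : (Bs × Bs) × Bs => (t.1.2, t.2)) ⁻¹' R) :=
    hR.preimage' (by fun_prop)
  exact h1.inter (h5.inter h2.proj.compl).proj

/-- a projective norm with uniformizable levels -/
theorem norm_uz (hPB : PB) {R : Set (Bs × Bs)} (hR : Proj (Bs × Bs) R) {ρ : Bs × Bs → Ordinal.{0}}
    (hρ : Proj ((Bs × Bs) × (Bs × Bs)) {q | ρ q.1 ≤ ρ q.2})
    (h : ∀ α, Uz {p | p ∈ R ∧ ρ p = α}) : Uz R := by
  refine uz_of_local hPB hR fun O hO hne hOR => ?_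
  by_contra hno
  push Not at hno
  choose f hf hfR using h
  have hOp : Proj Bs O := Proj.of_measurable hO.measurableSet
  have hS : Proj Bs (O ∩ Prod.fst '' R) := hOp.inter hR.proj
  have h1 : Proj (Bs × Bs) {p | p.1 ∈ O ∩ Prod.fst '' R ∧ p.2 ∈ O ∩ Prod.fst '' R ∧
      lst R ρ p.2 ≤ lst R ρ p.1} := by
    have h2 : Proj (Bs × Bs) (Prod.fst ⁻¹' O) := hOp.preimage' measurable_fst
    have h3 : Proj (Bs × Bs) (Prod.snd ⁻¹' O) := hOp.preimage' measurable_snd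
    have e : {p : Bs × Bs | p.1 ∈ O ∩ Prod.fst '' R ∧ p.2 ∈ O ∩ Prod.fst '' R ∧
        lst R ρ p.2 ≤ lst R ρ p.1} = (Prod.fst ⁻¹' O ∩ Prod.snd ⁻¹' O) ∩
          {p | p.1 ∈ Prod.fst '' R ∧ p.2 ∈ Prod.fst '' R ∧ lst R ρ p.2 ≤ lst R ρ p.1} := by
      ext p
      constructor
      · rintro ⟨h4, h5, h6⟩
        exact ⟨⟨h4.1, h5.1⟩, h4.2, h5.2, h6⟩
      · rintro ⟨⟨h4, h5⟩, h6, h7, h8⟩
        exact ⟨⟨h4, h6⟩, ⟨h5, h7⟩, h8⟩
    rw [e]
    exact (h2.inter h3).inter (lst_proj hR hρ)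
  have h2 : ∀ α, IsMeagre {x | x ∈ O ∩ Prod.fst '' R ∧ lst R ρ x = α} := by
    intro α
    have h3 : ∀ᶠ x in residual Bs, x ∈ {x | x ∈ O ∧ (x, f α x) ∈ R}ᶜ := hno (f α) (hf α)
    have h4 : ∀ᶠ x in residual Bs, x ∈ {x | x ∈ O ∩ Prod.fst '' R ∧ lst R ρ x = α}ᶜ := by
      filter_upwards [h3, hfR α] with x hx1 hx2
      rintro ⟨⟨hx3, hx4⟩, hx5⟩
      obtain ⟨y, hy, hy2⟩ := lst_mem (ρ := ρ) hx4
      have h5 : x ∈ Prod.fst '' {p | p ∈ R ∧ ρ p = α} := ⟨(x, y), ⟨hy, hy2.trans hx5⟩, rfl⟩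
      exact hx1 ⟨hx3, (hx2 h5).1⟩
    exact h4
  have h3 := prewo hPB hS (lst R ρ) h1 h2
  apply nonmeager_of_open hO hne
  have h4 : ∀ᶠ x in residual Bs, x ∈ Oᶜ := by
    have h5 : ∀ᶠ x in residual Bs, x ∈ (O ∩ Prod.fst '' R)ᶜ := h3
    filter_upwards [h5, hOR] with x hx1 hx2 hxO
    exact hx1 ⟨hxO, hx2 hxO⟩
  exact h4

/-- small sections over a point do not help to uniformize over an independent point -/
theorem indep (hPB : PB) {R Q : Set (Bs × Bs)} (hR : Proj (Bs × Bs) R) (hQ : Proj (Bs × Bs) Q)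
    (hs : ∀ᶠ x in residual Bs, Cardinal.mk (sec R x) < covM) {g : (Bs × Bs) × Bs → Bs}
    (hg : Measurable g) :
    (∀ᶠ p in residual (Bs × Bs), ∀ y ∈ sec R p.1, (p.2, g (p, y)) ∉ Q) ∨
      ∃ x, ∃ y ∈ sec R x, ¬ IsMeagre {z | (z, g ((x, z), y)) ∈ Q} := by
  by_contra hcon
  push Not at hcon
  obtain ⟨h1, h2⟩ := hcon
  have hE : Proj (Bs × Bs) {p | ∃ y, (p.1, y) ∈ R ∧ (p.2, g (p, y)) ∈ Q} := by
    have e : {p : Bs × Bs | ∃ y, (p.1, y) ∈ R ∧ (p.2, g (p, y)) ∈ Q} =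
        Prod.fst '' {t : (Bs × Bs) × Bs | (t.1.1, t.2) ∈ R ∧ (t.1.2, g t) ∈ Q} := by
      ext p
      constructor
      · rintro ⟨y, hy⟩
        exact ⟨(p, y), hy, rfl⟩
      · rintro ⟨⟨p', y⟩, hy, rfl⟩
        exact ⟨y, hy⟩
    rw [e]
    have h3 : Proj ((Bs × Bs) × Bs) ((fun t : (Bs × Bs) × Bs => (t.1.1, t.2)) ⁻¹' R) :=
      hR.preimage' (by fun_prop)
    have h4 : Proj ((Bs × Bs) × Bs) ((fun t : (Bs × Bs) × Bs => (t.1.2, g t)) ⁻¹' Q) :=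
      hQ.preimage' (by fun_prop)
    exact (h3.inter h4).proj
  have h3 : ¬ ∀ᶠ x in residual Bs, ∀ᶠ z in residual Bs,
      (x, z) ∈ {p : Bs × Bs | ∃ y, (p.1, y) ∈ R ∧ (p.2, g (p, y)) ∈ Q}ᶜ := by
    intro h4
    apply h1
    have h5 := ku_conv (pb2 hPB hE).compl h4
    filter_upwards [h5] with p hp
    rintro ⟨y, hy, hR2⟩
    exact hp ⟨y, hy, hR2⟩
  obtain ⟨x, hx1, hx2⟩ : ∃ x, Cardinal.mk (sec R x) < covM ∧ ¬ ∀ᶠ z in residual Bs,
      (x, z) ∈ {p : Bs × Bs | ∃ y, (p.1, y) ∈ R ∧ (p.2, g (p, y)) ∈ Q}ᶜ := by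
    by_contra hno
    push Not at hno
    apply h3
    filter_upwards [hs] with x hx
    exact hno x hx
  have h4 : Proj Bs {z | ∃ y, (x, y) ∈ R ∧ (z, g ((x, z), y)) ∈ Q} :=
    hE.preimage' (f := fun z : Bs => (x, z)) (measurable_const.prodMk measurable_id)
  obtain ⟨U, _, hU, hUne, hUE⟩ := open_of_nonmeagre (hPB _ h4) isOpen_univ (subset_univ _)
    (fun hm => hx2 hm)
  refine small_union' hx1 (M := fun y : sec R x => {z | (z, g ((x, z), (y : Bs))) ∈ Q})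
    (fun y => h2 x y y.2)
    (N := {z | z ∈ U → z ∈ {z | ∃ y, (x, y) ∈ R ∧ (z, g ((x, z), y)) ∈ Q}}ᶜ) ?_ hU hUne ?_
  · have h5 : {z | z ∈ U → z ∈ {z | ∃ y, (x, y) ∈ R ∧ (z, g ((x, z), y)) ∈ Q}}ᶜᶜ ∈
        residual Bs := by
      rw [compl_compl]
      exact hUE
    exact h5
  · intro z hz
    by_cases h5 : ∃ y, (x, y) ∈ R ∧ (z, g ((x, z), y)) ∈ Q
    · obtain ⟨y, hy1, hy2⟩ := h5
      exact Or.inr (mem_iUnion.2 ⟨⟨y, hy1⟩, hy2⟩)
    · exact Or.inl fun h6 => h5 (h6 hz)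

/-- analytic relations are uniformizable -/
theorem uz_analytic (hPB : PB) {A : Set (Bs × Bs)} (hA : MeasureTheory.AnalyticSet A) : Uz A := by
  rw [MeasureTheory.AnalyticSet] at hA
  rcases hA with rfl | ⟨h, hc, rfl⟩
  · refine ⟨fun x => x, measurable_id, Eventually.of_forall fun x hx => ?_⟩
    simp at hx
  · have hC : MeasurableSet {p : Bs × Bs | (h p.2).1 = p.1} :=
      measurableSet_eq_fun ((measurable_fst.comp hc.measurable).comp measurable_snd) measurable_fst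
    obtain ⟨f, hf, hfR⟩ := uz_fat hPB (R := {p : Bs × Bs | (h p.2).1 = p.1})
      (Proj.of_measurable hC) (Eventually.of_forall fun x hx => fat_of_closed (by
        have e : sec {p : Bs × Bs | (h p.2).1 = p.1} x = (fun z => (h z).1) ⁻¹' {x} := by
          ext z
          exact Iff.rfl
        rw [e]
        exact isClosed_singleton.preimage (continuous_fst.comp hc)) hx)
    refine ⟨fun x => (h (f x)).2, (measurable_snd.comp hc.measurable).comp hf, ?_⟩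
    filter_upwards [hfR] with x hx
    rintro ⟨_, ⟨z, rfl⟩, hz⟩
    have h1 : x ∈ Prod.fst '' {p : Bs × Bs | (h p.2).1 = p.1} := ⟨(x, z), hz, rfl⟩
    have h2 : (h (f x)).1 = x := hx h1
    refine ⟨f x, ?_⟩
    exact Prod.ext h2 rfl

end Pool.Agent.Helper85.UG
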