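import Pool.Agent.Helper85.UG.Tail

/-!
Unfolded Banach-Mazur games, projective uniformization up to meager sets, and decompositions of
projective relations.
-/

set_option autoImplicit false

namespace Pool.Agent.Helper85.UG.OldUnfolded

open Set Filter Topology Pool.Agent.Helper91.PU Pool.Agent.Helper83.UMC Pool.Agent.Helper85.UG

theorem result :
    (∀ R : Set (Bs × Bs),
      (WinI R ↔ ∃ O : Set Bs, IsOpen O ∧ O.Nonempty ∧ IsMeagre (O ∩ Prod.fst '' R)) ∧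
      (WinII R ↔ ∃ f : Bs → Bs, Measurable f ∧ ∀ᶠ x in residual Bs, (x, f x) ∈ R)) ∧
    List.TFAE [PB,
      ∀ A : Set Bs, Proj Bs A → WinI {p | p.1 ∈ A} ∨ WinII {p | p.1 ∈ A},
      ∀ R : Set (Bs × Bs), Proj (Bs × Bs) R → (∀ x, IsClosed (sec R x)) → WinI R ∨ WinII R,
      ∀ R : Set (Bs × Bs), Proj (Bs × Bs) R → (∀ x, (sec R x).Nonempty → Fat (sec R x)) →
        WinI R ∨ WinII R] ∧
    List.TFAE [UM,
      ∀ R : Set (Bs × Bs), Proj (Bs × Bs) R → WinI R ∨ WinII R,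
      PB ∧ ∀ R : Set (Bs × Bs), Proj (Bs × Bs) R → (∀ x, Tail (sec R x)) →
        (∀ᶠ x in residual Bs, IsMeagre (sec R x)) → Uz R] ∧
    (PB → ∀ R : Set (Bs × Bs), Proj (Bs × Bs) R →
      List.TFAE [Uz R, Split R, Normed R] ∧ (Decomp R → Uz R)) ∧
    ((∀ R : Set (Bs × Bs), Proj (Bs × Bs) R → Decomp R) → (PB ↔ UM)) ∧
    (PB → ∀ R Q : Set (Bs × Bs), Proj (Bs × Bs) R → Proj (Bs × Bs) Q →
      (∀ᶠ x in residual Bs, Cardinal.mk (sec R x) < covM) →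
      ∀ g : (Bs × Bs) × Bs → Bs, Measurable g →
        (∀ᶠ p in residual (Bs × Bs), ∀ y ∈ sec R p.1, (p.2, g (p, y)) ∉ Q) ∨
          ∃ x, ∃ y ∈ sec R x, ¬ IsMeagre {z | (z, g ((x, z), y)) ∈ Q}) := by
  refine ⟨fun R => ⟨winI_iff R, winII_iff R⟩, pb_tfae, ?_, fun hPB _ hR =>
    ⟨uz_tfae hPB hR, uz_decomp hPB hR⟩, pb_iff_um,
    fun hPB _ _ hR hQ hs _ hg => indep hPB hR hQ hs hg⟩
  tfae_have 1 ↔ 2 := um_iff_det
  tfae_have 1 ↔ 3 := um_iff_tail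
  tfae_finish

end Pool.Agent.Helper85.UG.OldUnfolded
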