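import Pool.Agent.Helper85.UG.Game

/-!
Who wins an unfolded Banach-Mazur game.
-/

set_option autoImplicit false

namespace Pool.Agent.Helper85.UG

open Set Filter Topology PiNat Pool.Agent.Helper91.PU

/-- the position after the moves `h` of the second player if the first player uses `σ` -/
def PosI (σ : List (List ℕ × ℕ) → List ℕ) : List (List ℕ × ℕ) → List ℕ
  | [] => []
  | a :: h => PosI σ h ++ σ h ++ a.1

theorem pos_PosI (σ : List (List ℕ × ℕ) → List ℕ) (m : ℕ → List ℕ × ℕ) (n : ℕ) :
    pos (fun n => σ (hist m n)) (fun n => (m n).1) n = PosI σ (hist m n) := by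
  induction n with
  | zero => rfl
  | succ n ih =>
    show pos (fun n => σ (hist m n)) (fun n => (m n).1) n ++ σ (hist m n) ++ (m n).1 = _
    rw [ih]
    rfl

/-- the state of the first player who follows dense open sets -/
def StI (s : List ℕ) (w : List ℕ → ℕ → List ℕ) : List (List ℕ × ℕ) → List ℕ × List ℕ
  | [] => ([], s)
  | a :: h => ((StI s w h).1 ++ (StI s w h).2 ++ a.1,
      w ((StI s w h).1 ++ (StI s w h).2 ++ a.1) h.length)

theorem PosI_StI (s : List ℕ) (w : List ℕ → ℕ → List ℕ) (h : List (List ℕ × ℕ)) :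
    PosI (fun h => (StI s w h).2) h = (StI s w h).1 := by
  induction h with
  | nil => rfl
  | cons a h ih =>
    show PosI (fun h => (StI s w h).2) h ++ (StI s w h).2 ++ a.1 = _
    rw [ih]
    rfl

theorem winI_iff (R : Set (Bs × Bs)) :
    WinI R ↔ ∃ O : Set Bs, IsOpen O ∧ O.Nonempty ∧ IsMeagre (O ∩ Prod.fst '' R) := by
  constructor
  · rintro ⟨σ, hσ, hw⟩
    refine ⟨Cy (σ []), Cy_isOpen _, Cy_nonempty _, ?_⟩
    have h1 : ∀ h : List (List ℕ × ℕ), ∀ k : ℕ, ∀ᶠ x in residual Bs,
        x ∈ (Cy (PosI σ h ++ σ h))ᶜ ∪ ⋃ v : {v : List ℕ // v ≠ []},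
          Cy (PosI σ ((v.1, k) :: h) ++ σ ((v.1, k) :: h)) := by
      intro h k
      obtain ⟨h2, h3⟩ := dense_step (PosI σ h ++ σ h) (ι := {v : List ℕ // v ≠ []})
        (fun v => PosI σ ((v.1, k) :: h) ++ σ ((v.1, k) :: h)) fun q hq =>
          ⟨⟨q, hq⟩, Cy_append _ _⟩
      exact residual_of_dense_open h2 h3
    have h2 : ∀ᶠ x in residual Bs, ∀ h : List (List ℕ × ℕ), ∀ k : ℕ,
        x ∈ (Cy (PosI σ h ++ σ h))ᶜ ∪ ⋃ v : {v : List ℕ // v ≠ []},
          Cy (PosI σ ((v.1, k) :: h) ++ σ ((v.1, k) :: h)) := by
      rw [eventually_countable_forall]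
      intro h
      rw [eventually_countable_forall]
      exact h1 h
    have h3 : (Cy (σ []) ∩ Prod.fst '' R)ᶜ ∈ residual Bs := by
      filter_upwards [h2] with x hx
      rintro ⟨hx0, ⟨⟨x', y⟩, hxy, hx'⟩⟩
      have hx'' : x' = x := hx'
      subst hx''
      obtain ⟨m, hm⟩ := exists_play (α := List ℕ × ℕ) (fun h => x' ∈ Cy (PosI σ h ++ σ h))
        (fun n a => a.1 ≠ [] ∧ a.2 = y n) hx0 (by
          intro h hh
          rcases hx h (y h.length) with h4 | h4
          · exact absurd hh h4
          · obtain ⟨⟨v, hv⟩, h5⟩ := mem_iUnion.1 h4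
            exact ⟨(v, y h.length), ⟨hv, rfl⟩, h5⟩)
      have hmv : ∀ n, (m n).1 ≠ [] := fun n => (hm n).2.1
      have hmy : (fun n => (m n).2) = y := funext fun n => (hm n).2.2
      have h4 : outc (fun n => σ (hist m n)) (fun n => (m n).1) = x' := by
        refine eq_outc hmv fun n => ?_
        rw [pos_PosI]
        exact Cy_append _ _ (hm n).1
      have h5 := hw m hmv
      rw [h4, hmy] at h5
      exact h5 hxy
    exact h3
  · rintro ⟨O, hO, ⟨x₀, hx₀⟩, hm⟩
    obtain ⟨D, hDo, hDd, hD⟩ := exists_dense_seq hm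
    obtain ⟨s, hs, _, hsO⟩ := exists_ext (p := []) (by rw [Cy_nil]; trivial) hO hx₀
    rw [List.nil_append] at hsO
    choose w hw1 hw2 using fun (p : List ℕ) (n : ℕ) => exists_ext_dense p (hDo n) (hDd n)
    refine ⟨fun h => (StI s w h).2, ?_, ?_⟩
    · intro h
      cases h with
      | nil => exact hs
      | cons a h => exact hw1 _ _
    · intro m hmv hR
      set x := outc (fun n => (StI s w (hist m n)).2) (fun n => (m n).1) with hx
      have h1 : ∀ n, x ∈ Cy ((StI s w (hist m n)).1 ++ (StI s w (hist m n)).2) := by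
        intro n
        have h2 := outc_mem (u := fun n => (StI s w (hist m n)).2) hmv (n + 1)
        have h3 : pos (fun n => (StI s w (hist m n)).2) (fun n => (m n).1) n =
            (StI s w (hist m n)).1 := by
          rw [← PosI_StI]
          exact pos_PosI (fun h => (StI s w h).2) m n
        have h4 : pos (fun n => (StI s w (hist m n)).2) (fun n => (m n).1) (n + 1) =
            (StI s w (hist m n)).1 ++ (StI s w (hist m n)).2 ++ (m n).1 := by
          show pos (fun n => (StI s w (hist m n)).2) (fun n => (m n).1) n ++ _ ++ _ = _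
          rw [h3]
        rw [h4] at h2
        exact Cy_append _ _ h2
      have hxO : x ∈ O := hsO (h1 0)
      have hxD : x ∈ ⋂ n, D n := by
        rw [mem_iInter]
        intro n
        have h2 := h1 (n + 1)
        have h3 : (StI s w (hist m (n + 1))).2 = w (StI s w (hist m (n + 1))).1 n := by
          show w _ (hist m n).length = _
          rw [hist_length]
          rfl
        rw [h3] at h2
        exact hw2 _ _ h2
      exact hD hxD ⟨hxO, ⟨_, hR, rfl⟩⟩

/-- the position after the moves `g` of the first player if the second player uses `τ` -/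
def PosII (τ : List (List ℕ) → List ℕ × ℕ) : List (List ℕ) → List ℕ
  | [] => []
  | u :: g => PosII τ g ++ u ++ (τ (u :: g)).1

theorem pos_PosII (τ : List (List ℕ) → List ℕ × ℕ) (u : ℕ → List ℕ) (n : ℕ) :
    pos u (fun n => (τ (hist u (n + 1))).1) n = PosII τ (hist u n) := by
  induction n with
  | zero => rfl
  | succ n ih =>
    show pos u (fun n => (τ (hist u (n + 1))).1) n ++ u n ++ (τ (hist u (n + 1))).1 = _
    rw [ih]
    rfl

/-- the state of the second player who follows dense open sets -/
def StII (c : List ℕ → ℕ → List ℕ × ℕ) : List (List ℕ) → List ℕ × (List ℕ × ℕ)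
  | [] => ([], ([0], 0))
  | u :: g => ((StII c g).1 ++ u ++ (c ((StII c g).1 ++ u) g.length).1,
      c ((StII c g).1 ++ u) g.length)

theorem PosII_StII (c : List ℕ → ℕ → List ℕ × ℕ) (g : List (List ℕ)) :
    PosII (fun g => (StII c g).2) g = (StII c g).1 := by
  induction g with
  | nil => rfl
  | cons u g ih =>
    show PosII (fun g => (StII c g).2) g ++ u ++ (StII c (u :: g)).2.1 = _
    rw [ih]
    rfl

/-- an enumeration of the finite sequences -/
noncomputable def enu (j : ℕ) : List ℕ := (exists_surjective_nat (List ℕ)).choose j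

theorem enu_surj (l : List ℕ) : ∃ j, enu j = l := (exists_surjective_nat (List ℕ)).choose_spec l

/-- the good next moves of the first player for the aim `x` -/
def Nx (τ : List (List ℕ) → List ℕ × ℕ) (g : List (List ℕ)) (j : ℕ) : Set Bs :=
  {x | enu j ≠ [] ∧ x ∈ Cy (PosII τ (enu j :: g))}

/-- the next move of the first player for the aim `x` -/
noncomputable def Mv (τ : List (List ℕ) → List ℕ × ℕ) (p : Bs × List (List ℕ)) : List (List ℕ) :=
  enu (sInf {j | p.1 ∈ Nx τ p.2 j}) :: p.2

/-- the moves of the first player for the aim `x` -/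
noncomputable def Gm (τ : List (List ℕ) → List ℕ × ℕ) (x : Bs) : ℕ → List (List ℕ)
  | 0 => []
  | n + 1 => Mv τ (x, Gm τ x n)

theorem Nx_measurable (τ : List (List ℕ) → List ℕ × ℕ) (g : List (List ℕ)) (j : ℕ) :
    MeasurableSet (Nx τ g j) := by
  by_cases h : enu j = []
  · have e : Nx τ g j = ∅ := by
      ext x
      simp [Nx, h]
    rw [e]
    exact MeasurableSet.empty
  · have e : Nx τ g j = Cy (PosII τ (enu j :: g)) := by
      ext x
      simp [Nx, h]
    rw [e]
    exact (Cy_isOpen _).measurableSet

theorem Gm_measurable (τ : List (List ℕ) → List ℕ × ℕ) (n : ℕ) :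
    @Measurable _ _ _ ⊤ fun x : Bs => Gm τ x n := by
  let _ : MeasurableSpace (List (List ℕ)) := ⊤
  have : MeasurableSingletonClass (List (List ℕ)) := ⟨fun _ => trivial⟩
  induction n with
  | zero => exact measurable_const
  | succ n ih =>
    have h1 : Measurable (Mv τ) := by
      apply measurable_from_prod_countable_left
      intro g
      exact (measurable_from_top (f := fun k : ℕ => enu k :: g)).comp
        (measurable_sInf_nat fun j => Nx_measurable τ g j)
    have h2 : Measurable fun x : Bs => (x, Gm τ x n) := measurable_id.prodMk ih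
    exact h1.comp h2

theorem winII_iff (R : Set (Bs × Bs)) :
    WinII R ↔ ∃ f : Bs → Bs, Measurable f ∧ ∀ᶠ x in residual Bs, (x, f x) ∈ R := by
  constructor
  · rintro ⟨τ, hτ, hw⟩
    refine ⟨fun x n => (τ (Gm τ x (n + 1))).2, ?_, ?_⟩
    · rw [measurable_pi_iff]
      intro n
      let _ : MeasurableSpace (List (List ℕ)) := ⊤
      exact (measurable_from_top (f := fun g : List (List ℕ) => (τ g).2)).comp
        (Gm_measurable τ (n + 1))
    · have h1 : ∀ᶠ x in residual Bs, ∀ g : List (List ℕ),
          x ∈ (Cy (PosII τ g))ᶜ ∪ ⋃ u : {u : List ℕ // u ≠ []}, Cy (PosII τ (u.1 :: g)) := by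
        rw [eventually_countable_forall]
        intro g
        obtain ⟨h2, h3⟩ := dense_step (PosII τ g) (ι := {u : List ℕ // u ≠ []})
          (fun u => PosII τ (u.1 :: g)) fun q hq => ⟨⟨q, hq⟩, Cy_append _ _⟩
        exact residual_of_dense_open h2 h3
      filter_upwards [h1] with x hx
      have hnx : ∀ g, x ∈ Cy (PosII τ g) → x ∈ Nx τ g (sInf {j | x ∈ Nx τ g j}) := by
        intro g hg
        rcases hx g with h2 | h2
        · exact absurd hg h2
        · obtain ⟨⟨u, hu⟩, h3⟩ := mem_iUnion.1 h2
          obtain ⟨j, hj⟩ := enu_surj u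
          have hne : ({j | x ∈ Nx τ g j} : Set ℕ).Nonempty := by
            refine ⟨j, ?_, ?_⟩
            · rw [hj]
              exact hu
            · rw [hj]
              exact h3
          have h4 : sInf {j | x ∈ Nx τ g j} ∈ {j | x ∈ Nx τ g j} := Nat.sInf_mem hne
          exact h4
      have hG : ∀ n, x ∈ Cy (PosII τ (Gm τ x n)) := by
        intro n
        induction n with
        | zero =>
          show x ∈ Cy []
          rw [Cy_nil]
          trivial
        | succ n ih => exact (hnx _ ih).2
      set u : ℕ → List ℕ := fun n => enu (sInf {j | x ∈ Nx τ (Gm τ x n) j}) with hu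
      have hu0 : ∀ n, u n ≠ [] := fun n => (hnx _ (hG n)).1
      have hhist : ∀ n, hist u n = Gm τ x n := by
        intro n
        induction n with
        | zero => rfl
        | succ n ih =>
          show u n :: hist u n = _
          rw [ih]
          rfl
      have h2 := hw u hu0
      have h3 : outc u (fun n => (τ (hist u (n + 1))).1) = x := by
        refine eq_outc (fun n => hτ _) fun n => ?_
        rw [pos_PosII, hhist]
        exact hG n
      rw [h3] at h2
      have h4 : (fun n => (τ (hist u (n + 1))).2) = fun n => (τ (Gm τ x (n + 1))).2 := by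
        funext n
        rw [hhist]
      rw [h4] at h2
      exact h2
  · rintro ⟨f, hf, hfR⟩
    -- open sets which decide the values of `f`
    have hE : ∀ n k : ℕ, BaireMeasurableSet {x | f x n = k} := by
      intro n k
      have h1 : Measurable fun x => f x n := (measurable_pi_apply n).comp hf
      exact (h1 (measurableSet_singleton k)).baireMeasurableSet
    choose U hUo hU using fun n k => (hE n k).residualEq_isOpen
    have hA : ∀ᶠ x in residual Bs, (x, f x) ∈ R ∧ ∀ n k, f x n = k ↔ x ∈ U n k := by
      have h1 : ∀ᶠ x in residual Bs, ∀ n k, f x n = k ↔ x ∈ U n k := by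
        rw [eventually_countable_forall]
        intro n
        rw [eventually_countable_forall]
        intro k
        filter_upwards [hU n k] with x hx
        exact iff_of_eq hx
      exact hfR.and h1
    obtain ⟨D, hDo, hDd, hD⟩ := exists_dense_seq hA
    have hUd : ∀ n, Dense (⋃ k, U n k) := by
      intro n
      have h1 : ∀ᶠ x in residual Bs, x ∈ ⋃ k, U n k := by
        filter_upwards [hA] with x hx
        exact mem_iUnion.2 ⟨f x n, (hx.2 n _).1 rfl⟩
      exact dense_of_mem_residual h1
    have hstep : ∀ (p : List ℕ) (n : ℕ), ∃ c : List ℕ × ℕ, c.1 ≠ [] ∧ Cy (p ++ c.1) ⊆ D n ∧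
        Cy (p ++ c.1) ⊆ U n c.2 := by
      intro p n
      have h1 : Dense (D n ∩ ⋃ k, U n k) :=
        (hDd n).inter_of_isOpen_left (hUd n) (hDo n)
      obtain ⟨x, hxp, hxD, hxU⟩ := h1.inter_open_nonempty (Cy p) (Cy_isOpen p) (Cy_nonempty p)
      obtain ⟨k, hk⟩ := mem_iUnion.1 hxU
      obtain ⟨q, hq, _, hqU⟩ := exists_ext hxp ((hDo n).inter (hUo n k)) ⟨hxD, hk⟩
      exact ⟨(q, k), hq, hqU.trans inter_subset_left, hqU.trans inter_subset_right⟩
    choose c hc1 hc2 hc3 using hstep
    refine ⟨fun g => (StII c g).2, ?_, ?_⟩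
    · intro g
      cases g with
      | nil => exact List.cons_ne_nil _ _
      | cons u g => exact hc1 _ _
    · intro u hu
      have hv : ∀ n, (StII c (hist u (n + 1))).2.1 ≠ [] := fun n => hc1 _ _
      set x := outc u (fun n => (StII c (hist u (n + 1))).2.1) with hx
      have h1 : ∀ n, x ∈ D n ∧ x ∈ U n (StII c (hist u (n + 1))).2.2 := by
        intro n
        have h2 := outc_mem (u := u) hv (n + 1)
        have h3 : pos u (fun n => (StII c (hist u (n + 1))).2.1) (n + 1) =
            (StII c (hist u n)).1 ++ u n ++ (StII c (hist u (n + 1))).2.1 := by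
          have h4 := pos_PosII (fun g => (StII c g).2) u n
          rw [PosII_StII] at h4
          show pos u (fun n => (StII c (hist u (n + 1))).2.1) n ++ _ ++ _ = _
          rw [h4]
        rw [h3] at h2
        have h4 : (StII c (hist u (n + 1))).2 = c ((StII c (hist u n)).1 ++ u n) n := by
          show c _ (hist u n).length = _
          rw [hist_length]
        rw [h4] at h2 ⊢
        exact ⟨hc2 _ _ h2, hc3 _ _ h2⟩
      have h2 := hD (mem_iInter.2 fun n => (h1 n).1)
      have h3 : (fun n => (StII c (hist u (n + 1))).2.2) = f x := by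
        funext n
        exact ((h2.2 n _).2 (h1 n).2).symm
      rw [h3]
      exact h2.1

end Pool.Agent.Helper85.UG
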